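import Pool.Agent.H.MP_516cd6_nt.Steps

/-!
# A first quadratic bound, and the main growth process
-/

set_option autoImplicit false
set_option linter.unusedSectionVars false

open Finset
open scoped Pointwise

namespace Pool.Agent.H.MP_516cd6_nt

variable {G : Type*} [AddCommGroup G] [DecidableEq G]

theorem two_mul_le {H : AddSubgroup G} {D E : Finset G} {y : G} (hD : ∀ d ∈ D, d ∈ H)
    (hy : y ∉ H) (h1 : D ⊆ E) (h2 : {y} + D ⊆ E) : 2 * D.card ≤ E.card := by
  have hdisj : Disjoint D ({y} + D) := by
    rw [Finset.disjoint_left]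
    intro x hx hx'
    obtain ⟨d, hd, rfl⟩ := mem_singleton_add'.1 hx'
    exact hy ((H.add_mem_cancel_right (hD d hd)).1 (hD _ hx))
  have h3 := card_le_card (union_subset h1 h2)
  rw [card_union_of_disjoint hdisj] at h3
  have h4 : ({y} + D).card = D.card := by simp
  omega

theorem card_closure_ge [Finite G] {X R C : Finset G} (h : WZSF (X ∪ R)) (hXR : Disjoint X R)
    (hC : C ⊆ X.subsetSum) (hCH : ∀ c ∈ C, c ∈ AddSubgroup.closure (R : Set G)) :
    C.card + R.subsetSum.card ≤ Nat.card (AddSubgroup.closure (R : Set G)) + 1 := by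
  classical
  set H := AddSubgroup.closure (R : Set G) with hH
  set D : Finset G := (R.subsetSum.erase 0).image (fun x => -x) with hD
  have hDc : D.card + 1 = R.subsetSum.card := by
    rw [hD, card_image_of_injective _ neg_injective]
    exact card_erase_add_one Finset.zero_mem_subsetSum
  have hDH : ∀ d ∈ D, d ∈ H := by
    intro d hd
    rw [hD, mem_image] at hd
    obtain ⟨x, hx, rfl⟩ := hd
    exact H.neg_mem (subsetSum_subset_closure R x (mem_of_mem_erase hx))
  have hdisj : Disjoint C D := by
    rw [Finset.disjoint_left]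
    intro x hx hx'
    rw [hD, mem_image] at hx'
    obtain ⟨y, hy, rfl⟩ := hx'
    have h1 : -y = 0 := h.eq_zero hXR (hC hx) (by simpa using mem_of_mem_erase hy)
    exact (ne_of_mem_erase hy) (by simpa using h1)
  have h2 : (C ∪ D).card ≤ Nat.card H := by
    have h3 : ((C ∪ D : Finset G) : Set G) ⊆ (H : Set G) := by
      intro x hx
      have hx' : x ∈ C ∪ D := by exact_mod_cast hx
      rw [mem_union] at hx'
      rcases hx' with hx' | hx'
      · exact hCH x hx'
      · exact hDH x hx'
    have h4 := Set.ncard_le_ncard h3 (Set.toFinite _)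
    rw [Set.ncard_coe_finset] at h4
    exact h4
  rw [card_union_of_disjoint hdisj] at h2
  omega

theorem sum_mem_of_subset {H : AddSubgroup G} {X : Finset G} (hX : ∀ x ∈ X, x ∈ H) :
    ∀ y ∈ X.subsetSum, y ∈ H := by
  intro y hy
  obtain ⟨B, hB, rfl⟩ := mem_SS.1 hy
  exact AddSubgroup.sum_mem _ (fun b hb => hX b (hB hb))

/-- A first quadratic bound. -/
theorem base [Finite G] : ∀ (n : ℕ) (S : Finset G), WZSF S → S.card = n →
    n ^ 2 ≤ 400 * S.subsetSum.card := by
  classical
  intro n
  induction n using Nat.strong_induction_on with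
  | _ n ih =>
  intro S hS hSn
  by_cases hH : ∃ H : AddSubgroup G, (∃ s ∈ S, s ∉ H) ∧
      n ^ 2 ≤ 2 * (S.filter (fun x => x ∈ H)).card ^ 2
  · obtain ⟨H, ⟨s, hs, hsH⟩, hn⟩ := hH
    set R := S.filter (fun x => x ∈ H) with hR
    have hRS : R ⊆ S := filter_subset _ _
    have hsR : s ∉ R := by
      rw [hR, mem_filter]; exact fun h => hsH h.2
    have hlt : R.card < n := by
      rw [← hSn]
      exact card_lt_card ((Finset.ssubset_iff_of_subset hRS).2 ⟨s, hs, hsR⟩)
    have h1 := ih _ hlt R (hS.mono hRS) rfl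
    have h2 : 2 * R.subsetSum.card ≤ S.subsetSum.card := by
      refine two_mul_le (H := H) (y := s) ?_ hsH (Finset.subsetSum_mono hRS) ?_
      · apply sum_mem_of_subset
        intro x hx
        rw [hR, mem_filter] at hx
        exact hx.2
      · have h3 : {s} + R.subsetSum ⊆ (insert s R).subsetSum := by
          rw [subsetSum_insert hsR]; exact subset_union_right
        exact h3.trans (Finset.subsetSum_mono (insert_subset hs hRS))
    calc n ^ 2 ≤ 2 * R.card ^ 2 := hn
      _ ≤ 2 * (400 * R.subsetSum.card) := by omega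
      _ ≤ 400 * S.subsetSum.card := by omega
  · push Not at hH
    have key : ∀ j, 8 * j ≤ n → ∃ X ⊆ S, X.card = j ∧ 4 + j * (j + 1) ≤ 4 * X.subsetSum.card := by
      intro j
      induction j with
      | zero =>
        intro _
        refine ⟨∅, empty_subset _, rfl, ?_⟩
        have : (∅ : Finset G).subsetSum = {0} := by
          ext x
          rw [mem_SS]
          simp [eq_comm]
        rw [this]
        simp
      | succ j ihj =>
        intro hj
        obtain ⟨X, hXS, hXc, hX⟩ := ihj (by omega)
        set R := S \ X with hR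
        have hRS : R ⊆ S := sdiff_subset
        have hRc : R.card = n - j := by
          rw [hR, card_sdiff_of_subset hXS, hSn, hXc]
        have hXR : Disjoint X R := disjoint_sdiff
        have hunion : X ∪ R = S := by rw [hR]; exact Finset.union_sdiff_of_subset hXS
        have hRsq : n ^ 2 ≤ 2 * R.card ^ 2 := by
          obtain ⟨t, ht⟩ := Nat.exists_eq_add_of_le (show 8 * (j + 1) ≤ n from hj)
          have h1 : R.card = 7 * j + 8 + t := by omega
          rw [h1, ht]
          nlinarith
        have hgen : ∀ s ∈ S, s ∈ AddSubgroup.closure (R : Set G) := by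
          intro s hs
          by_contra hcon
          have h1 := hH (AddSubgroup.closure (R : Set G)) ⟨s, hs, hcon⟩
          have h2 : R ⊆ S.filter (fun x => x ∈ AddSubgroup.closure (R : Set G)) := by
            intro x hx
            rw [mem_filter]
            exact ⟨hRS hx, AddSubgroup.subset_closure (by exact_mod_cast hx)⟩
          have h3 := card_le_card h2
          have h4 : R.card ^ 2 ≤
              (S.filter (fun x => x ∈ AddSubgroup.closure (R : Set G))).card ^ 2 :=
            Nat.pow_le_pow_left h3 2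
          omega
        have hCH := sum_mem_of_subset (fun x hx => hgen x (hXS hx))
        have h1 := card_closure_ge (by rw [hunion]; exact hS) hXR (Subset.refl _) hCH
        have h2 := (hS.mono hRS).card_lt
        have h3 := (hS.mono hXS).card_lt
        obtain ⟨x, hx, hgr⟩ := weak_step' (hS.mono hRS)
          (by rw [← card_pos]; omega) X.subsetSum hCH (b := j + 1) (by omega) (by omega) (by omega)
        have hgr' : j + 1 ≤ 2 * lam X.subsetSum x := by omega
        have hxX : x ∉ X := fun h => (Finset.disjoint_left.1 hXR h) hx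
        refine ⟨insert x X, insert_subset (hRS hx) hXS, ?_, ?_⟩
        · rw [card_insert_of_notMem hxX, hXc]
        · rw [card_subsetSum_insert hxX]
          have : (j + 1) * (j + 1 + 1) = j * (j + 1) + 2 * (j + 1) := by ring
          omega
    obtain ⟨X, hXS, -, hX⟩ := key (n / 8) (by omega)
    have h1 := card_le_card (Finset.subsetSum_mono hXS)
    set j := n / 8 with hj
    have h2 : n ≤ 8 * j + 7 := by omega
    have h3 : n ^ 2 ≤ (8 * j + 7) ^ 2 := Nat.pow_le_pow_left h2 2
    have h4 : (8 * j + 7) ^ 2 ≤ 100 * (4 + j * (j + 1)) := by nlinarith [sq_nonneg ((j : ℤ) - 1)]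
    omega

theorem lam_filter_le {H : AddSubgroup G} [DecidablePred (fun x => x ∈ H)] (B : Finset G) {x : G}
    (hx : x ∈ H) : lam (B.filter (fun x => x ∈ H)) x ≤ lam B x := by
  unfold lam
  refine card_le_card ?_
  intro w hw
  rw [mem_sdiff, mem_singleton_add'] at hw ⊢
  obtain ⟨⟨b, hb, rfl⟩, h2⟩ := hw
  rw [mem_filter] at hb h2
  refine ⟨⟨b, hb.1, rfl⟩, fun h => h2 ⟨h, H.add_mem hx hb.2⟩⟩

/-- One step of the main process. -/
theorem main_step [Finite G] {S X : Finset G} (hS : WZSF S) (hXS : X ⊆ S) {δ : ℝ} (hδ : 0 < δ)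
    (hδ1 : δ < 1 / 2) (hinv : (invol S : ℝ) ≤ δ * (S \ X).card)
    (hr : 3200 < δ ^ 2 * (S \ X).card) :
    (∃ x ∈ S \ X, (X.subsetSum.card : ℝ) + (1 - 2 * δ) * (S \ X).card ≤
        (insert x X).subsetSum.card) ∨
      ((X.subsetSum.card : ℝ) + (S \ X).subsetSum.card - 2 / δ * (S \ X).card ≤
        S.subsetSum.card ∧
      (2 / δ * (S \ X).card ≤ X.subsetSum.card →
        2 * (S \ X).subsetSum.card ≤ S.subsetSum.card)) := by
  classical
  set R := S \ X with hR
  have hRS : R ⊆ S := sdiff_subset
  have hXR : Disjoint X R := disjoint_sdiff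
  have hunion : X ∪ R = S := by rw [hR]; exact Finset.union_sdiff_of_subset hXS
  set H := AddSubgroup.closure (R : Set G) with hH
  set C := X.subsetSum.filter (fun x => x ∈ H) with hC
  have hCX : C ⊆ X.subsetSum := filter_subset _ _
  have hCH : ∀ c ∈ C, c ∈ H := fun c hc => (mem_filter.1 hc).2
  have hDH : ∀ d ∈ R.subsetSum, d ∈ H := subsetSum_subset_closure R
  set r : ℝ := (R.card : ℝ) with hrdef
  have hrpos : 0 < r := by
    by_contra h
    have h' : r = 0 := le_antisymm (not_lt.1 h) (by positivity)
    rw [h'] at hr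
    linarith
  have hbase : ∀ R' ⊆ R, (R'.card : ℝ) ^ 2 ≤ 400 * (R'.subsetSum.card : ℝ) := by
    intro R' hR'
    have := base _ R' (hS.mono (hR'.trans hRS)) rfl
    exact_mod_cast this
  rcases le_or_gt (2 / δ * r) (C.card : ℝ) with hcase | hcase
  · left
    have h1 := card_closure_ge (by rw [hunion]; exact hS) hXR hCX hCH
    have h1' : (C.card : ℝ) + R.subsetSum.card ≤
        Nat.card (AddSubgroup.closure (R : Set G)) + 1 := by exact_mod_cast h1
    have h2 := hbase R (Subset.refl _)
    have h3 : 2 / δ * r + 1 ≤ (R.subsetSum.card : ℝ) := by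
      -- `r ^ 2 / 400 ≥ 8 r / δ ^ 2 ≥ 2 r / δ + 1`
      have h4 : 3200 * r ≤ δ ^ 2 * r ^ 2 := by nlinarith
      have h5 : δ ^ 2 * r ^ 2 ≤ δ ^ 2 * (400 * (R.subsetSum.card : ℝ)) :=
        mul_le_mul_of_nonneg_left h2 (by positivity)
      have h6 : 8 * r ≤ δ ^ 2 * (R.subsetSum.card : ℝ) := by linarith
      have h7 : δ ^ 2 * (2 / δ * r + 1) ≤ 8 * r := by
        have e1 : δ ^ 2 * (2 / δ * r + 1) = 2 * δ * r + δ ^ 2 := by field_simp
        rw [e1]
        have h8 : 1 ≤ r := by
          rw [hrdef] at hrpos ⊢
          have : 0 < R.card := by exact_mod_cast hrpos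
          exact_mod_cast this
        nlinarith
      have h9 : δ ^ 2 * (2 / δ * r + 1) ≤ δ ^ 2 * (R.subsetSum.card : ℝ) := h7.trans h6
      exact le_of_mul_le_mul_left h9 (by positivity)
    obtain ⟨x, hx, hgr⟩ := strong_step' (hS.mono hRS) (N := 400) (by norm_num) hbase hδ hδ1
      (by
        refine le_trans ?_ hinv
        have : invol R ≤ invol S := card_le_card (filter_subset_filter _ hRS)
        exact_mod_cast this)
      (by linarith) C hCH hcase (by linarith)
    have hxX : x ∉ X := fun h => (Finset.disjoint_left.1 hXR h) hx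
    refine ⟨x, hx, ?_⟩
    rw [card_subsetSum_insert hxX]
    have h10 : lam C x ≤ lam X.subsetSum x :=
      lam_filter_le X.subsetSum (AddSubgroup.subset_closure (by exact_mod_cast hx))
    have h11 : (lam C x : ℝ) ≤ lam X.subsetSum x := by exact_mod_cast h10
    push_cast
    linarith
  · right
    have hXSs : X.subsetSum ⊆ S.subsetSum := Finset.subsetSum_mono hXS
    have hRSs : R.subsetSum ⊆ S.subsetSum := Finset.subsetSum_mono hRS
    constructor
    · have hdisj : Disjoint (X.subsetSum \ C) R.subsetSum := by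
        rw [Finset.disjoint_left]
        intro y hy hy'
        rw [mem_sdiff, hC, mem_filter] at hy
        exact hy.2 ⟨hy.1, hDH y hy'⟩
      have h1 := card_le_card (union_subset (sdiff_subset.trans hXSs : X.subsetSum \ C ⊆ _) hRSs)
      rw [card_union_of_disjoint hdisj] at h1
      have h2 := Finset.card_sdiff_add_card_eq_card hCX
      have h3 : X.subsetSum.card + R.subsetSum.card ≤ S.subsetSum.card + C.card := by omega
      have h4 : (X.subsetSum.card : ℝ) + R.subsetSum.card ≤ S.subsetSum.card + C.card := by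
        exact_mod_cast h3
      linarith
    · intro hbig
      have h1 : C.card < X.subsetSum.card := by
        have : (C.card : ℝ) < X.subsetSum.card := lt_of_lt_of_le hcase hbig
        exact_mod_cast this
      have h2 : ∃ y ∈ X.subsetSum, y ∉ H := by
        by_contra hcon
        push Not at hcon
        have : C = X.subsetSum := by
          rw [hC]
          exact filter_true_of_mem hcon
        rw [this] at h1
        exact lt_irrefl _ h1
      obtain ⟨y, hy, hyH⟩ := h2
      refine two_mul_le hDH hyH hRSs ?_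
      have h3 := add_subset_subsetSum_union hXR
      rw [hunion] at h3
      refine Subset.trans ?_ h3
      exact Finset.add_subset_add_right (by simpa using hy)

/-- The main process. -/
theorem process [Finite G] {S X₀ : Finset G} (hS : WZSF S) (hXS : X₀ ⊆ S) {δ : ℝ} (hδ : 0 < δ)
    (hδ1 : δ < 1 / 2) (rlow : ℕ) (hinv : (invol S : ℝ) ≤ δ * rlow)
    (hr : 3200 < δ ^ 2 * rlow) (hX₀ : 2 / δ * S.card ≤ X₀.subsetSum.card) (n₀ : ℕ)
    (hn₀ : X₀.card + n₀ = S.card) (k : ℕ) :
    ∀ r, r + k = n₀ → rlow ≤ r →
      (∃ X ⊆ S, X.card + r = S.card ∧ 2 / δ * S.card ≤ X.subsetSum.card ∧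
        (1 - 2 * δ) * ((n₀ : ℝ) ^ 2 - (r : ℝ) ^ 2) / 2 ≤ X.subsetSum.card) ∨
      (∃ R ⊆ S, rlow ≤ R.card ∧ R.card ≤ n₀ ∧
        (1 - 2 * δ) * ((n₀ : ℝ) ^ 2 - (R.card : ℝ) ^ 2) / 2 + R.subsetSum.card
          - 2 / δ * R.card ≤ S.subsetSum.card ∧ 2 * R.subsetSum.card ≤ S.subsetSum.card) := by
  induction k with
  | zero =>
    intro r hr1 _
    left
    refine ⟨X₀, hXS, by omega, hX₀, ?_⟩
    have : r = n₀ := by omega
    rw [this]
    simp
  | succ k ih =>
    intro r hr1 hr2
    rcases ih (r + 1) (by omega) (by omega) with ⟨X, hX1, hX2, hX3, hX4⟩ | hstop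
    · have hRc : (S \ X).card = r + 1 := by
        rw [card_sdiff_of_subset hX1]; omega
      have hlow : (rlow : ℝ) ≤ ((r + 1 : ℕ) : ℝ) := by
        have : rlow ≤ r + 1 := by omega
        exact_mod_cast this
      have hstep := main_step hS hX1 hδ hδ1
        (by
          rw [hRc]
          exact hinv.trans (mul_le_mul_of_nonneg_left hlow hδ.le))
        (by
          rw [hRc]
          exact lt_of_lt_of_le hr (mul_le_mul_of_nonneg_left hlow (by positivity)))
      rw [hRc] at hstep
      rcases hstep with ⟨x, hx, hgr⟩ | ⟨h1, h2⟩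
      · left
        have hxX : x ∉ X := (mem_sdiff.1 hx).2
        refine ⟨insert x X, insert_subset (mem_sdiff.1 hx).1 hX1, ?_, ?_, ?_⟩
        · rw [card_insert_of_notMem hxX]; omega
        · have : (0 : ℝ) ≤ (1 - 2 * δ) * ((r + 1 : ℕ) : ℝ) := by
            apply mul_nonneg (by linarith) (by positivity)
          linarith
        · have e1 : (1 - 2 * δ) * ((n₀ : ℝ) ^ 2 - (r : ℝ) ^ 2) / 2 ≤
              (1 - 2 * δ) * ((n₀ : ℝ) ^ 2 - ((r + 1 : ℕ) : ℝ) ^ 2) / 2 +
                (1 - 2 * δ) * ((r + 1 : ℕ) : ℝ) := by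
            push_cast
            have : 0 ≤ (1 - 2 * δ) := by linarith
            nlinarith
          linarith
      · right
        refine ⟨S \ X, sdiff_subset, by omega, by omega, ?_, ?_⟩
        · rw [hRc]
          linarith
        · apply h2
          refine le_trans ?_ hX3
          apply mul_le_mul_of_nonneg_left _ (by positivity)
          have : r + 1 ≤ S.card := by omega
          exact_mod_cast this
    · exact Or.inr hstop

end Pool.Agent.H.MP_516cd6_nt
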