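import Mathlib

/-!
# Olson's growth lemma

`lam B x = |(x + B) \ B|`.  If `T` is a symmetric generating set containing `0` whose isoperimetric
constant is at least `K`, then for every `B` some `x ∈ T` has `lam B x` at least about `K / 2`.
-/

set_option autoImplicit false
set_option linter.unusedSectionVars false

open Finset
open scoped Pointwise

namespace Pool.Agent.H.MP_516cd6_nt

section basic

variable {G : Type*} [AddCommGroup G] [DecidableEq G]

/-- `lam B x = |(x + B) \ B|`. -/
def lam (B : Finset G) (x : G) : ℕ := (({x} + B) \ B).card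

theorem mem_singleton_add' {x w : G} {B : Finset G} : w ∈ {x} + B ↔ ∃ b ∈ B, x + b = w := by
  rw [Finset.mem_add]
  simp

theorem lam_zero (B : Finset G) : lam B 0 = 0 := by
  unfold lam
  rw [card_eq_zero, sdiff_eq_empty_iff_subset]
  intro w hw
  obtain ⟨b, hb, rfl⟩ := mem_singleton_add'.1 hw
  rwa [zero_add]

theorem lam_add (B : Finset G) (x y : G) : lam B (x + y) ≤ lam B x + lam B y := by
  unfold lam
  have h1 : ({x + y} + B) \ B ⊆ ({y} + (({x} + B) \ B)) ∪ (({y} + B) \ B) := by
    intro w hw
    rw [mem_sdiff] at hw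
    obtain ⟨hw1, hw2⟩ := hw
    obtain ⟨u, hu, b, hb, rfl⟩ := Finset.mem_add.1 hw1
    rw [mem_singleton] at hu
    subst hu
    by_cases hxb : x + b ∈ B
    · rw [mem_union]
      right
      rw [mem_sdiff]
      refine ⟨?_, hw2⟩
      have := Finset.add_mem_add (mem_singleton_self y) hxb
      convert this using 1
      abel
    · rw [mem_union]
      left
      have h2 : x + b ∈ ({x} + B) \ B := by
        rw [mem_sdiff]
        exact ⟨Finset.add_mem_add (mem_singleton_self x) hb, hxb⟩
      have := Finset.add_mem_add (mem_singleton_self y) h2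
      convert this using 1
      abel
  calc (({x + y} + B) \ B).card ≤ (({y} + (({x} + B) \ B)) ∪ (({y} + B) \ B)).card :=
        card_le_card h1
    _ ≤ ({y} + (({x} + B) \ B)).card + (({y} + B) \ B).card := card_union_le _ _
    _ = (({x} + B) \ B).card + (({y} + B) \ B).card := by simp

theorem card_filter_add_lam (B : Finset G) (x : G) :
    (B.filter (fun b => x + b ∈ B)).card + lam B x = B.card := by
  unfold lam
  have h1 : ({x} + B) \ B = {x} + B.filter (fun b => ¬ x + b ∈ B) := by
    ext w
    simp only [mem_sdiff, mem_singleton_add', mem_filter]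
    constructor
    · rintro ⟨⟨b, hb, rfl⟩, h⟩
      exact ⟨b, ⟨hb, h⟩, rfl⟩
    · rintro ⟨b, ⟨hb, h⟩, rfl⟩
      exact ⟨⟨b, hb, rfl⟩, h⟩
  rw [h1]
  have h2 : ({x} + B.filter (fun b => ¬ x + b ∈ B)).card =
      (B.filter (fun b => ¬ x + b ∈ B)).card := by simp
  rw [h2]
  exact Finset.card_filter_add_card_filter_not _

theorem lam_neg (B : Finset G) (x : G) : lam B (-x) = lam B x := by
  have h1 := card_filter_add_lam B x
  have h2 := card_filter_add_lam B (-x)
  have h3 : (B.filter (fun b => x + b ∈ B)).card = (B.filter (fun b => -x + b ∈ B)).card := by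
    refine Finset.card_bij (fun b _ => x + b) ?_ ?_ ?_
    · intro b hb
      rw [mem_filter] at hb ⊢
      refine ⟨hb.2, ?_⟩
      simpa using hb.1
    · intro b _ c _ h
      exact add_left_cancel h
    · intro b hb
      rw [mem_filter] at hb
      refine ⟨-x + b, ?_, by simp⟩
      rw [mem_filter]
      exact ⟨hb.2, by simpa using hb.1⟩
  omega

theorem lam_le_card (B : Finset G) (x : G) : lam B x ≤ B.card := by
  have := card_filter_add_lam B x
  omega

/-- Double counting. -/
theorem sum_lam (B X : Finset G) : X.card * B.card ≤ ∑ x ∈ X, lam B x + B.card * B.card := by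
  have h1 : ∑ x ∈ X, ((B.filter (fun b => x + b ∈ B)).card + lam B x) = X.card * B.card := by
    rw [Finset.sum_congr rfl (fun x _ => card_filter_add_lam B x)]
    simp
  rw [Finset.sum_add_distrib] at h1
  have h2 : ∑ x ∈ X, (B.filter (fun b => x + b ∈ B)).card ≤ B.card * B.card := by
    have h3 : ∑ x ∈ X, (B.filter (fun b => x + b ∈ B)).card =
        ∑ b ∈ B, (X.filter (fun x => x + b ∈ B)).card := by
      simp only [Finset.card_filter]
      rw [Finset.sum_comm]
    rw [h3]
    calc ∑ b ∈ B, (X.filter (fun x => x + b ∈ B)).card ≤ ∑ _b ∈ B, B.card := by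
          refine Finset.sum_le_sum (fun b _ => ?_)
          refine Finset.card_le_card_of_injOn (fun x => x + b) ?_ ?_
          · intro x hx
            have hx' := (mem_filter.1 hx).2
            exact hx'
          · intro x _ y _ h
            exact add_right_cancel h
      _ = B.card * B.card := by simp
  omega

/-- Balls. -/
def ball (T : Finset G) : ℕ → Finset G
  | 0 => {0}
  | n + 1 => ball T n + T

theorem ball_subset_succ {T : Finset G} (h0 : (0 : G) ∈ T) (n : ℕ) :
    ball T n ⊆ ball T (n + 1) := by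
  intro x hx
  have := Finset.add_mem_add hx h0
  rwa [add_zero] at this

theorem ball_nonempty {T : Finset G} (h0 : (0 : G) ∈ T) (n : ℕ) : (ball T n).Nonempty := by
  refine ⟨0, ?_⟩
  induction n with
  | zero => simp [ball]
  | succ n ih => exact ball_subset_succ h0 n ih

theorem lam_ball {T : Finset G} (B : Finset G) (α : ℝ)
    (hα : ∀ x ∈ T, (lam B x : ℝ) ≤ α) (n : ℕ) : ∀ x ∈ ball T n, (lam B x : ℝ) ≤ n * α := by
  induction n with
  | zero =>
    intro x hx
    simp only [ball, mem_singleton] at hx
    subst hx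
    simp [lam_zero]
  | succ n ih =>
    intro x hx
    obtain ⟨u, hu, t, ht, rfl⟩ := Finset.mem_add.1 hx
    have h1 := ih u hu
    have h2 := hα t ht
    have h3 : (lam B (u + t) : ℝ) ≤ lam B u + lam B t := by exact_mod_cast lam_add B u t
    push_cast
    linarith

theorem sum_lam_ball {T : Finset G} (h0 : (0 : G) ∈ T) (B : Finset G) (α : ℝ)
    (hα : ∀ x ∈ T, (lam B x : ℝ) ≤ α) (n : ℕ) :
    ∑ x ∈ ball T n, (lam B x : ℝ) ≤
      α * (n * ((ball T n).card : ℝ) - ∑ j ∈ range n, ((ball T j).card : ℝ)) := by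
  induction n with
  | zero => simp [ball, lam_zero]
  | succ n ih =>
    have hsub := ball_subset_succ h0 n
    rw [← Finset.sum_sdiff hsub]
    have h1 : ∑ x ∈ ball T (n + 1) \ ball T n, (lam B x : ℝ) ≤
        ((ball T (n + 1) \ ball T n).card : ℝ) * ((n + 1) * α) := by
      calc ∑ x ∈ ball T (n + 1) \ ball T n, (lam B x : ℝ) ≤
          ∑ _x ∈ ball T (n + 1) \ ball T n, ((n + 1) * α) := by
            refine Finset.sum_le_sum (fun x hx => ?_)
            have := lam_ball B α hα (n + 1) x (mem_sdiff.1 hx).1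
            push_cast at this
            exact this
        _ = ((ball T (n + 1) \ ball T n).card : ℝ) * ((n + 1) * α) := by
            rw [Finset.sum_const, nsmul_eq_mul]
    have h2 : ((ball T (n + 1) \ ball T n).card : ℝ) =
        (ball T (n + 1)).card - (ball T n).card := by
      rw [Finset.cast_card_sdiff hsub]
    rw [h2] at h1
    rw [Finset.sum_range_succ]
    push_cast
    nlinarith [h1, ih]

end basic

section finite

variable {G : Type*} [AddCommGroup G] [Fintype G] [DecidableEq G]

theorem lam_compl (B : Finset G) (x : G) : lam Bᶜ x = lam B x := by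
  have h1 : ({x} + Bᶜ) \ Bᶜ = B \ ({x} + B) := by
    ext w
    simp only [mem_sdiff, mem_singleton_add', mem_compl, not_not]
    constructor
    · rintro ⟨⟨b, hb, rfl⟩, h⟩
      refine ⟨h, ?_⟩
      rintro ⟨c, hc, hcb⟩
      have : c = b := by simpa using hcb
      exact hb (this ▸ hc)
    · rintro ⟨h, h2⟩
      refine ⟨⟨-x + w, ?_, by simp⟩, h⟩
      intro h3
      exact h2 ⟨-x + w, h3, by simp⟩
  have h2 : (B \ ({x} + B)).card + (B ∩ ({x} + B)).card = B.card :=
    Finset.card_sdiff_add_card_inter _ _
  have h3 : (({x} + B) \ B).card + (({x} + B) ∩ B).card = ({x} + B).card :=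
    Finset.card_sdiff_add_card_inter _ _
  have h4 : ({x} + B).card = B.card := by simp
  rw [inter_comm] at h3
  unfold lam
  rw [h1]
  omega

theorem card_ball {T : Finset G} (h0 : (0 : G) ∈ T) {K : ℝ}
    (iso : ∀ X : Finset G, X.Nonempty → X + T ≠ univ → (X.card : ℝ) + K ≤ (X + T).card) (n : ℕ) :
    ball T n = univ ∨ (n : ℝ) * K ≤ (ball T n).card := by
  induction n with
  | zero => right; simp
  | succ n ih =>
    rcases ih with h | h
    · left
      have := ball_subset_succ h0 n
      rw [h] at this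
      exact Finset.univ_subset_iff.1 this
    · by_cases h2 : ball T (n + 1) = univ
      · exact Or.inl h2
      · right
        have h3 := iso (ball T n) (ball_nonempty h0 n) h2
        have h4 : ball T n + T = ball T (n + 1) := rfl
        rw [h4] at h3
        push_cast
        linarith

/-- Growth lemma, main form. -/
theorem growth_aux {T : Finset G} (h0 : (0 : G) ∈ T) {K : ℝ} (hK : 0 < K)
    (iso : ∀ X : Finset G, X.Nonempty → X + T ≠ univ → (X.card : ℝ) + K ≤ (X + T).card)
    (B : Finset G) (hB : 2 * B.card ≤ Fintype.card G) (hBK : K ≤ 8 * (B.card : ℝ)) (α : ℝ)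
    (hα : ∀ x ∈ T, (lam B x : ℝ) ≤ α) :
    K * B.card ≤ 2 * (B.card + K) * α := by
  set b : ℝ := (B.card : ℝ) with hb
  have hbpos : 0 < b := by linarith
  have hBG : 2 * b ≤ (Fintype.card G : ℝ) := by rw [hb]; exact_mod_cast hB
  set n : ℕ := ⌈2 * b / K⌉₊ with hn
  have hn1 : 2 * b ≤ n * K := by
    have := Nat.le_ceil (2 * b / K)
    rw [div_le_iff₀ hK] at this
    exact this
  have hn2 : (n : ℝ) * K < 2 * b + K := by
    have := Nat.ceil_lt_add_one (show 0 ≤ 2 * b / K by positivity)
    have h2 : (n : ℝ) < 2 * b / K + 1 := this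
    calc (n : ℝ) * K < (2 * b / K + 1) * K := by gcongr
      _ = 2 * b + K := by field_simp
  have hαnn : 0 ≤ α := by
    have := hα 0 h0
    rw [lam_zero] at this
    simpa using this
  -- card of the big ball
  set A : ℝ := ((ball T n).card : ℝ) with hA
  have hA2 : 2 * b ≤ A := by
    rcases card_ball h0 iso n with h | h
    · rw [hA, h, card_univ]; exact hBG
    · linarith
  have hj : ∀ j ∈ range n, (j : ℝ) * K ≤ ((ball T j).card : ℝ) := by
    intro j hj
    rw [mem_range] at hj
    have hj' : (j : ℝ) + 1 ≤ n := by exact_mod_cast hj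
    rcases card_ball h0 iso j with h | h
    · rw [h, card_univ]
      nlinarith
    · exact h
  have hsum : (n : ℝ) * (n - 1) / 2 * K ≤ ∑ j ∈ range n, ((ball T j).card : ℝ) := by
    calc (n : ℝ) * (n - 1) / 2 * K = ∑ j ∈ range n, (j : ℝ) * K := by
          rw [← Finset.sum_mul]
          congr 1
          have h1 := Finset.sum_range_id_mul_two n
          have h2 : ((∑ i ∈ range n, i : ℕ) : ℝ) * 2 = n * ((n - 1 : ℕ) : ℝ) := by
            exact_mod_cast h1
          rcases Nat.eq_zero_or_pos n with h3 | h3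
          · rw [h3]; simp
          · rw [Nat.cast_sub h3] at h2
            push_cast at h2
            linarith
      _ ≤ _ := Finset.sum_le_sum hj
  have h1 := sum_lam_ball h0 B α hα n
  have h2 : A * b ≤ ∑ x ∈ ball T n, (lam B x : ℝ) + b * b := by
    have := sum_lam B (ball T n)
    rw [hA, hb]
    exact_mod_cast this
  have h3 : b * (A - b) ≤ α * (n * A - (n : ℝ) * (n - 1) / 2 * K) := by
    have : α * (n * A - ∑ j ∈ range n, ((ball T j).card : ℝ)) ≤
        α * (n * A - (n : ℝ) * (n - 1) / 2 * K) := by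
      apply mul_le_mul_of_nonneg_left _ hαnn
      linarith
    linarith
  set s : ℝ := n * K - 2 * b with hs
  have hs0 : 0 ≤ s := by linarith
  have hsK : s < K := by linarith
  have hnK : (n : ℝ) * K = 2 * b + s := by rw [hs]; ring
  have h4 : K * (n * A - (n : ℝ) * (n - 1) / 2 * K) ≤ 2 * (A - b) * (b + K) := by
    have e1 : K * (n * A - (n : ℝ) * (n - 1) / 2 * K) =
        (n * K) * A - (n * K) * (n * K - K) / 2 := by ring
    rw [e1, hnK]
    have h5 : (A - b) * (2 * K - s) ≥ b * (2 * K - s) := by
      apply mul_le_mul_of_nonneg_right _ (by linarith)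
      linarith
    have h6 : s * (K - s) ≤ K * K / 4 := by nlinarith [sq_nonneg (2 * s - K)]
    have h7 : K * K ≤ K * (8 * b) := mul_le_mul_of_nonneg_left hBK hK.le
    nlinarith
  have h8 : K * (b * (A - b)) ≤ α * (2 * (A - b) * (b + K)) := by
    calc K * (b * (A - b)) ≤ K * (α * (n * A - (n : ℝ) * (n - 1) / 2 * K)) :=
          mul_le_mul_of_nonneg_left h3 hK.le
      _ = α * (K * (n * A - (n : ℝ) * (n - 1) / 2 * K)) := by ring
      _ ≤ _ := mul_le_mul_of_nonneg_left h4 hαnn
  have hAb : 0 < A - b := by linarith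
  have h9 : (K * b) * (A - b) ≤ (2 * (b + K) * α) * (A - b) := by nlinarith
  exact le_of_mul_le_mul_right h9 hAb

/-- Growth for small sets. -/
theorem growth_small {T : Finset G} (h0 : (0 : G) ∈ T)
    (B : Finset G) (hB : 2 * B.card ≤ T.card) (α : ℝ)
    (hα : ∀ x ∈ T, (lam B x : ℝ) ≤ α) :
    (B.card : ℝ) ≤ 2 * α := by
  have h1 := sum_lam B T
  have h2 : ∑ x ∈ T, (lam B x : ℝ) ≤ T.card * α := by
    calc ∑ x ∈ T, (lam B x : ℝ) ≤ ∑ _x ∈ T, α := Finset.sum_le_sum hα
      _ = T.card * α := by rw [Finset.sum_const, nsmul_eq_mul]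
  have h3 : (T.card : ℝ) * B.card ≤ ∑ x ∈ T, (lam B x : ℝ) + B.card * B.card := by
    exact_mod_cast h1
  have hT : (0 : ℝ) < T.card := by
    have : 0 < T.card := card_pos.2 ⟨0, h0⟩
    exact_mod_cast this
  have hB' : 2 * (B.card : ℝ) ≤ T.card := by exact_mod_cast hB
  have hBnn : (0 : ℝ) ≤ B.card := by positivity
  have h4 : (T.card : ℝ) * B.card ≤ T.card * (2 * α) := by nlinarith
  exact le_of_mul_le_mul_left h4 hT

/-- Growth lemma: there is a good `x ∈ T`. -/
theorem growth {T : Finset G} (h0 : (0 : G) ∈ T) {K : ℝ} (hK : 0 < K)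
    (iso : ∀ X : Finset G, X.Nonempty → X + T ≠ univ → (X.card : ℝ) + K ≤ (X + T).card)
    (C : Finset G) {b : ℝ} (hb1 : b ≤ C.card) (hb2 : C.card + b ≤ Fintype.card G)
    (hbK : K ≤ 8 * b) :
    ∃ x ∈ T, K * b ≤ 2 * (b + K) * lam C x := by
  obtain ⟨x, hx, hmax⟩ := Finset.exists_max_image T (fun x => lam C x) ⟨0, h0⟩
  refine ⟨x, hx, ?_⟩
  have key : ∀ B : Finset G, 2 * B.card ≤ Fintype.card G → b ≤ B.card →
      (∀ y, lam B y = lam C y) → K * b ≤ 2 * (b + K) * lam C x := by
    intro B hB hbB hl
    have h1 := growth_aux h0 hK iso B hB (by linarith) (lam C x) (by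
      intro y hy
      rw [hl]
      exact_mod_cast hmax y hy)
    set β : ℝ := (B.card : ℝ)
    set α : ℝ := (lam C x : ℝ)
    have hα : 0 ≤ α := by positivity
    have hb0 : 0 < b := by linarith
    have hβ : 0 < β := by linarith
    -- `K β / (β + K)` is monotone in `β`
    have h2 : K * β * (b + K) ≤ 2 * (β + K) * α * (b + K) :=
      mul_le_mul_of_nonneg_right h1 (by linarith)
    have h3 : K * b * (β + K) ≤ K * β * (b + K) := by
      have := mul_le_mul_of_nonneg_left hbB (by positivity : 0 ≤ K * K)
      nlinarith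
    have h4 : (K * b) * (β + K) ≤ (2 * (b + K) * α) * (β + K) := by linarith
    exact le_of_mul_le_mul_right h4 (by linarith)
  rcases le_total (2 * C.card) (Fintype.card G) with h | h
  · exact key C h hb1 (fun _ => rfl)
  · refine key Cᶜ ?_ ?_ (fun y => lam_compl C y)
    · rw [card_compl]; omega
    · rw [card_compl, Nat.cast_sub (card_le_univ C)]
      linarith

end finite

end Pool.Agent.H.MP_516cd6_nt
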