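import Mathlib

/-!
# Isoperimetric inequality (Hamidoune's atoms)

For a symmetric subset `T ∋ 0` of a finite abelian group, the minimum of `|X + T| - |X|` over the
nonempty `X` with `X + T ≠ G` is attained at a subgroup.
-/

set_option autoImplicit false
set_option linter.unusedSectionVars false

open Finset
open scoped Pointwise

namespace Pool.Agent.H.MP_516cd6_nt

variable {G : Type*} [AddCommGroup G] [Fintype G] [DecidableEq G]

theorem submod (X Y T : Finset G) :
    ((X ∩ Y) + T).card + ((X ∪ Y) + T).card ≤ (X + T).card + (Y + T).card := by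
  rw [Finset.union_add]
  have h1 := Finset.card_union_add_card_inter (X + T) (Y + T)
  have h2 := card_le_card (Finset.inter_add_subset : (X ∩ Y) + T ⊆ (X + T) ∩ (Y + T))
  omega

theorem subset_add_of_zero_mem {X T : Finset G} (h0 : (0 : G) ∈ T) : X ⊆ X + T := by
  intro x hx
  have := Finset.add_mem_add hx h0
  rwa [add_zero] at this

/-- Hamidoune's theorem: the isoperimetric minimum is attained at a subgroup. -/
theorem exists_subgroup_le (T : Finset G) (h0 : (0 : G) ∈ T) (hs : ∀ x ∈ T, -x ∈ T)
    (X₀ : Finset G) (hX₀ : X₀.Nonempty) (hX₀T : X₀ + T ≠ univ) :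
    ∃ (H : AddSubgroup G) (F : Finset G), (∀ x, x ∈ F ↔ x ∈ H) ∧ F + T ≠ univ ∧
      (F + T).card + X₀.card ≤ F.card + (X₀ + T).card := by
  classical
  -- admissible sets
  set P : Finset (Finset G) := univ.filter (fun X : Finset G => X.Nonempty ∧ X + T ≠ univ) with hP
  have memP : ∀ X : Finset G, X ∈ P ↔ X.Nonempty ∧ X + T ≠ univ := by
    intro X; simp [hP]
  set a : Finset G → ℕ := fun X => (X + T).card - X.card with ha
  have hcard : ∀ X : Finset G, (X + T).card = X.card + a X := by
    intro X
    have := card_le_card (subset_add_of_zero_mem (X := X) h0)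
    simp only [ha]; omega
  obtain ⟨X1, hX1, hmin1⟩ := Finset.exists_min_image P a ⟨X₀, (memP _).2 ⟨hX₀, hX₀T⟩⟩
  set Q : Finset (Finset G) := P.filter (fun X => a X = a X1) with hQ
  obtain ⟨X2, hX2, hmin2⟩ := Finset.exists_min_image Q (fun X => X.card)
    ⟨X1, by simp [hQ, hX1]⟩
  -- properties of an atom
  have isAtom : ∀ X : Finset G, X.card = X2.card → X ∈ P → a X = a X1 → (0 : G) ∈ X →
      ∀ Y : Finset G, Y.card = X2.card → Y ∈ P → a Y = a X1 → (0 : G) ∈ Y → X = Y := by
    intro X hXc hXP hXa hX0 Y hYc hYP hYa hY0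
    by_contra hne
    have hI : (X ∩ Y).card < X.card := by
      refine card_lt_card ?_
      refine (Finset.ssubset_iff_subset_ne).2 ⟨inter_subset_left, ?_⟩
      intro h
      have hXY : X ⊆ Y := by rw [← h]; exact inter_subset_right
      exact hne (Finset.eq_of_subset_of_card_le hXY (by omega))
    have hIne : (X ∩ Y).Nonempty := ⟨0, by simp [hX0, hY0]⟩
    have hIP : X ∩ Y ∈ P := by
      rw [memP]
      refine ⟨hIne, fun h => ?_⟩
      have h1 : (X ∩ Y) + T ⊆ X + T := Finset.add_subset_add_right inter_subset_left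
      rw [h] at h1
      exact ((memP X).1 hXP).2 (Finset.univ_subset_iff.1 h1)
    have hIa : a X1 < a (X ∩ Y) := by
      have h1 := hmin1 _ hIP
      rcases Nat.lt_or_ge (a X1) (a (X ∩ Y)) with h | h
      · exact h
      · have h2 : X ∩ Y ∈ Q := by
          simp only [hQ, mem_filter]; exact ⟨hIP, le_antisymm h h1⟩
        have h3 := hmin2 _ h2
        omega
    have hsub := submod X Y T
    have hcu := Finset.card_union_add_card_inter X Y
    have e1 := hcard (X ∩ Y)
    have e2 := hcard (X ∪ Y)
    have e3 := hcard X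
    have e4 := hcard Y
    have hUa : a (X ∪ Y) < a X1 := by omega
    have hU : X ∪ Y ∉ P := fun h => by
      have := hmin1 _ h
      omega
    have hUT : (X ∪ Y) + T = univ := by
      by_contra h
      exact hU ((memP _).2 ⟨hIne.mono (inter_subset_left.trans subset_union_left), h⟩)
    -- the complement of `X + T`
    set Z : Finset G := (X + T)ᶜ with hZ
    have hZne : Z.Nonempty := by
      rw [hZ, Finset.nonempty_iff_ne_empty, Ne, Finset.compl_eq_empty_iff]
      exact ((memP X).1 hXP).2
    have hZT : Z + T ⊆ Xᶜ := by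
      intro w hw
      obtain ⟨z, hz, t, ht, rfl⟩ := Finset.mem_add.1 hw
      rw [mem_compl]
      intro hzt
      rw [hZ, mem_compl] at hz
      apply hz
      have := Finset.add_mem_add hzt (hs t ht)
      simpa using this
    have hZP : Z ∈ P := by
      rw [memP]
      refine ⟨hZne, fun h => ?_⟩
      rw [h] at hZT
      have h0' : (0 : G) ∈ Xᶜ := hZT (mem_univ _)
      rw [mem_compl] at h0'
      exact h0' hX0
    have hZc : Z.card = Fintype.card G - (X + T).card := by rw [hZ, card_compl]
    have hXc' : (Xᶜ).card = Fintype.card G - X.card := card_compl X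
    have hle1 := card_le_card hZT
    have e5 := hcard Z
    have hXle : X.card ≤ Fintype.card G := card_le_univ X
    have hXTle : (X + T).card ≤ Fintype.card G := card_le_univ _
    have hZa : a Z ≤ a X1 := by omega
    have hZa' : a Z = a X1 := le_antisymm hZa (hmin1 _ hZP)
    have hZQ : Z ∈ Q := by simp only [hQ, mem_filter]; exact ⟨hZP, hZa'⟩
    have hZmin := hmin2 _ hZQ
    rw [hUT, card_univ] at e2
    have hIpos : 0 < (X ∩ Y).card := hIne.card_pos
    omega
  have hX2P : X2 ∈ P := by
    have := hX2
    simp only [hQ, mem_filter] at this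
    exact this.1
  have hX2a : a X2 = a X1 := by
    have := hX2
    simp only [hQ, mem_filter] at this
    exact this.2
  obtain ⟨x0, hx0⟩ := ((memP X2).1 hX2P).1
  -- translates
  have trans : ∀ (g : G) (X : Finset G), X ∈ P → a X = a X1 → X.card = X2.card →
      ({g} + X) ∈ P ∧ a ({g} + X) = a X1 ∧ ({g} + X).card = X2.card := by
    intro g X hX hXa hXc
    have h1 : ({g} + X).card = X.card := by simp
    have h2 : ({g} + X) + T = {g} + (X + T) := add_assoc _ _ _
    have h3 : (({g} + X) + T).card = (X + T).card := by rw [h2]; simp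
    refine ⟨?_, ?_, by omega⟩
    · rw [memP]
      refine ⟨(singleton_nonempty g).add ((memP X).1 hX).1, fun h => ?_⟩
      apply ((memP X).1 hX).2
      rw [← Finset.card_eq_iff_eq_univ] at h ⊢
      omega
    · have e1 := hcard X
      have e2 := hcard ({g} + X)
      omega
  set A : Finset G := {-x0} + X2 with hA
  obtain ⟨hAP, hAa, hAc⟩ := trans (-x0) X2 hX2P hX2a rfl
  rw [← hA] at hAP hAa hAc
  have hA0 : (0 : G) ∈ A := by
    rw [hA]
    have := Finset.add_mem_add (mem_singleton_self (-x0)) hx0
    simpa using this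
  have key : ∀ g ∈ A, {-g} + A = A := by
    intro g hg
    obtain ⟨h1, h2, h3⟩ := trans (-g) A hAP hAa hAc
    refine (isAtom A hAc hAP hAa hA0 _ h3 h1 h2 ?_).symm
    have := Finset.add_mem_add (mem_singleton_self (-g)) hg
    simpa using this
  have hneg : ∀ g ∈ A, -g ∈ A := by
    intro g hg
    have h1 := key g hg
    have := Finset.add_mem_add (mem_singleton_self (-g)) hA0
    rw [h1] at this
    simpa using this
  let H : AddSubgroup G :=
    { carrier := {x | x ∈ A}
      zero_mem' := hA0
      add_mem' := by
        intro x y hx hy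
        have h1 := key (-x) (hneg x hx)
        have := Finset.add_mem_add (mem_singleton_self (-(-x))) hy
        rw [h1] at this
        simpa using this
      neg_mem' := by
        intro x hx
        exact hneg x hx }
  refine ⟨H, A, fun x => Iff.rfl, ((memP A).1 hAP).2, ?_⟩
  have h1 := hmin1 X₀ ((memP _).2 ⟨hX₀, hX₀T⟩)
  have e1 := hcard A
  have e2 := hcard X₀
  omega

end Pool.Agent.H.MP_516cd6_nt
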