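import Pool.Agent.H.MP_516cd6_nt.Base

/-!
# The asymptotic bound `|Σ(S)| ≥ (1/2 - ε) |S|²`
-/

set_option autoImplicit false
set_option linter.unusedSectionVars false

open Finset Filter
open scoped Pointwise Topology

universe u

namespace Pool.Agent.H.MP_516cd6_nt

/-- All large weakly zero-sum-free sets have at least `c m ^ 2` subset sums. -/
def Bound (c : ℝ) : Prop :=
  ∃ M : ℕ, ∀ (G : Type u) [AddCommGroup G] [Finite G] [DecidableEq G] (S : Finset G),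
    WZSF S → M ≤ S.card → c * (S.card : ℝ) ^ 2 ≤ S.subsetSum.card

theorem two_pow_invol_le {G : Type u} [AddCommGroup G] [DecidableEq G] {S : Finset G}
    (hS : WZSF S) : 2 ^ invol S ≤ S.subsetSum.card := by
  have h1 : S.filter (fun x => x + x = 0) ⊆ S := filter_subset _ _
  have h2 := two_pow_le (hS.mono h1) (fun x hx => (mem_filter.1 hx).2)
  exact h2.trans (card_le_card (Finset.subsetSum_mono h1))

theorem eventually_exp (ε : ℝ) (hε : 0 < ε) :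
    ∀ᶠ m : ℕ in atTop, ∀ i : ℕ, ε * m ≤ i → (m : ℝ) ^ 2 ≤ (2 : ℝ) ^ i := by
  have h1 : 1 < (2 : ℝ) ^ ε := Real.one_lt_rpow (by norm_num) hε
  have h2 := tendsto_pow_const_div_const_pow_of_one_lt 2 h1
  have h3 := h2.eventually (gt_mem_nhds (show (0 : ℝ) < 1 by norm_num))
  filter_upwards [h3] with m hm i hi
  rw [div_lt_one (by positivity)] at hm
  have h4 : ((2 : ℝ) ^ ε) ^ m ≤ (2 : ℝ) ^ i := by
    rw [← Real.rpow_natCast, ← Real.rpow_mul (by norm_num), ← Real.rpow_natCast]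
    exact Real.rpow_le_rpow_of_exponent_le (by norm_num) hi
  linarith

theorem num_sq {m j0 δ : ℝ} (hδ : 0 < δ) (hδ1 : δ ≤ 1 / 100) (hm : 0 < m) (hj1 : j0 ≤ δ * m) :
    (1 - 2 * δ) * m ^ 2 ≤ (m - j0) ^ 2 := by
  have e1 : (1 - δ) * m ≤ m - j0 := by linarith
  have e2 : ((1 - δ) * m) ^ 2 ≤ (m - j0) ^ 2 :=
    pow_le_pow_left₀ (mul_nonneg (by linarith) hm.le) e1 2
  have e3 : 0 ≤ δ ^ 2 * m ^ 2 := by positivity
  nlinarith

theorem num_A {m j0 rl δ γ c T : ℝ} (hδdef : δ = γ / 50) (hγ : γ = 1 / 2 - c)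
    (hc0 : 1 / 400 ≤ c) (hγpos : 0 < γ) (hm : 0 < m) (hδm : 3300 ≤ δ * m) (hj1 : j0 ≤ δ * m)
    (hrl0 : 0 ≤ rl) (hrl : rl < δ * m + 1)
    (hX : (1 - 2 * δ) * ((m - j0) ^ 2 - rl ^ 2) / 2 ≤ T) : (c + γ / 400) * m ^ 2 ≤ T := by
  have hδ : 0 < δ := by rw [hδdef]; positivity
  have hδ1 : δ ≤ 1 / 100 := by rw [hδdef]; linarith
  have hn1 := num_sq hδ hδ1 hm hj1
  have e2 : rl ^ 2 ≤ δ * m ^ 2 := by
    have e3 : rl ≤ 2 * (δ * m) := by linarith
    have e4 : rl ^ 2 ≤ (2 * (δ * m)) ^ 2 := pow_le_pow_left₀ hrl0 e3 2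
    have e5 : (2 * (δ * m)) ^ 2 = (4 * δ) * (δ * m ^ 2) := by ring
    have e6 : (4 * δ) * (δ * m ^ 2) ≤ 1 * (δ * m ^ 2) :=
      mul_le_mul_of_nonneg_right (by linarith) (by positivity)
    linarith
  have e3 : (1 - 2 * δ) * ((1 - 3 * δ) * m ^ 2) ≤
      (1 - 2 * δ) * ((m - j0) ^ 2 - rl ^ 2) := by
    apply mul_le_mul_of_nonneg_left _ (by linarith)
    linarith
  have e4 : (1 - 5 * δ) * m ^ 2 ≤ (1 - 2 * δ) * ((1 - 3 * δ) * m ^ 2) := by
    have : 0 ≤ δ ^ 2 * m ^ 2 := by positivity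
    nlinarith
  have e5 : (c + γ / 400) * m ^ 2 ≤ (1 - 5 * δ) / 2 * m ^ 2 := by
    apply mul_le_mul_of_nonneg_right _ (by positivity)
    rw [hδdef]
    linarith
  linarith

theorem num_B {m j0 r δ γ c T D : ℝ} (hδdef : δ = γ / 50) (hγ : γ = 1 / 2 - c)
    (hc0 : 1 / 400 ≤ c) (hγpos : 0 < γ) (hm : 0 < m) (hj1 : j0 ≤ δ * m)
    (hm4 : 1000 ≤ γ ^ 2 * m) (hr0 : 0 ≤ r) (hrm : r ≤ m)
    (hR3 : (1 - 2 * δ) * ((m - j0) ^ 2 - r ^ 2) / 2 + D - 2 / δ * r ≤ T)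
    (hR4 : 2 * D ≤ T) (hb : c * r ^ 2 ≤ D) : (c + γ / 400) * m ^ 2 ≤ T := by
  have hδ : 0 < δ := by rw [hδdef]; positivity
  have hδ1 : δ ≤ 1 / 100 := by rw [hδdef]; linarith
  have hn1 := num_sq hδ hδ1 hm hj1
  rcases le_or_gt (9 / 10 * m) r with hcase | hcase
  · -- `r ≥ 0.9 m`
    have e1 : (9 / 10 * m) ^ 2 ≤ r ^ 2 := pow_le_pow_left₀ (by positivity) hcase 2
    have e2 : c * (81 / 100 * m ^ 2) ≤ c * r ^ 2 := by
      apply mul_le_mul_of_nonneg_left _ (by linarith)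
      nlinarith
    have e3 : (c + γ / 400) * m ^ 2 ≤ (2 * c * (81 / 100)) * m ^ 2 := by
      apply mul_le_mul_of_nonneg_right _ (by positivity)
      linarith
    linarith
  · have e1 : r ^ 2 ≤ (9 / 10 * m) ^ 2 := pow_le_pow_left₀ hr0 hcase.le 2
    have e2 : 2 / δ * r ≤ 2 / δ * m := mul_le_mul_of_nonneg_left hrm (by positivity)
    have e3 : 2 / δ * m ≤ (γ / 10) * m ^ 2 := by
      have e4 : 2 / δ * m = 100 * m / γ := by rw [hδdef]; field_simp; norm_num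
      rw [e4, div_le_iff₀ hγpos]
      have e5 : γ / 10 * m ^ 2 * γ = (γ ^ 2 * m) * m / 10 := by ring
      rw [e5]
      nlinarith
    have e6 : (1 - 2 * δ) * ((1 - 2 * δ) * m ^ 2 - r ^ 2) ≤
        (1 - 2 * δ) * ((m - j0) ^ 2 - r ^ 2) := by
      apply mul_le_mul_of_nonneg_left _ (by linarith)
      linarith
    have e7 : (1 - 4 * δ) * m ^ 2 - r ^ 2 ≤
        (1 - 2 * δ) * ((1 - 2 * δ) * m ^ 2 - r ^ 2) := by
      have f1 : 0 ≤ δ ^ 2 * m ^ 2 := by positivity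
      have f2 : 0 ≤ δ * r ^ 2 := by positivity
      nlinarith
    -- total
    have e8 : ((1 - 4 * δ) * m ^ 2 - r ^ 2) / 2 + c * r ^ 2 - (γ / 10) * m ^ 2 ≤ T := by
      linarith
    have e9 : ((1 - 4 * δ) * m ^ 2 - r ^ 2) / 2 + c * r ^ 2 =
        (1 - 4 * δ) / 2 * m ^ 2 - γ * r ^ 2 := by rw [hγ]; ring
    have e10 : γ * r ^ 2 ≤ γ * (81 / 100 * m ^ 2) := by
      apply mul_le_mul_of_nonneg_left _ hγpos.le
      nlinarith
    have e11 : (c + γ / 400) * m ^ 2 ≤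
        ((1 - 4 * δ) / 2 - γ * (81 / 100) - γ / 10) * m ^ 2 := by
      apply mul_le_mul_of_nonneg_right _ (by positivity)
      rw [hδdef]
      linarith
    linarith

theorem num_C {m j0 δ D : ℝ} (hδ : 0 < δ) (hm : 0 < m) (hm1 : 3300 ≤ δ ^ 3 * m)
    (hδm : 3300 ≤ δ * m) (hj2 : δ * m < j0 + 1) (e2 : j0 ^ 2 ≤ 400 * D) : 2 / δ * m ≤ D := by
  have e3 : (δ * m) / 2 ≤ j0 := by linarith
  have e4 : ((δ * m) / 2) ^ 2 ≤ j0 ^ 2 := pow_le_pow_left₀ (by positivity) e3 2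
  have e5 : 2 / δ * m ≤ (δ ^ 2 * m ^ 2) / 1600 := by
    have e6 : 2 / δ * m = 2 * m / δ := by ring
    rw [e6, div_le_iff₀ hδ]
    have : (δ ^ 2 * m ^ 2) / 1600 * δ = (δ ^ 3 * m) * m / 1600 := by ring
    rw [this]
    nlinarith
  have e7 : ((δ * m) / 2) ^ 2 = (δ ^ 2 * m ^ 2) / 4 := by ring
  rw [e7] at e4
  linarith

theorem improve_aux {c γ δ : ℝ} (hδdef : δ = γ / 50) (hγ : γ = 1 / 2 - c)
    (hc0 : 1 / 400 ≤ c) (hγpos : 0 < γ) (M : ℕ)
    {G : Type u} [AddCommGroup G] [Finite G] [DecidableEq G]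
    (hM : ∀ S : Finset G, WZSF S → M ≤ S.card → c * (S.card : ℝ) ^ 2 ≤ S.subsetSum.card)
    (S : Finset G) (hS : WZSF S) (m : ℕ) (hm : S.card = m)
    (h1 : ∀ i : ℕ, δ * δ * m ≤ i → (m : ℝ) ^ 2 ≤ (2 : ℝ) ^ i) (h2 : 3300 / δ ^ 3 ≤ m)
    (h3 : M / δ ≤ m) (h5 : 1000 / γ ^ 2 ≤ m) :
    (c + γ / 400) * (m : ℝ) ^ 2 ≤ S.subsetSum.card := by
  have hδ : 0 < δ := by rw [hδdef]; positivity
  have hδ1 : δ ≤ 1 / 100 := by rw [hδdef]; linarith
  have hδ2 : δ ^ 2 ≤ δ := by nlinarith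
  have hm1 : 3300 ≤ δ ^ 3 * m := by
    rw [div_le_iff₀ (by positivity)] at h2; linarith
  have hm2 : (M : ℝ) ≤ δ * m := by
    rw [div_le_iff₀ hδ] at h3; linarith
  have hm4 : 1000 ≤ γ ^ 2 * m := by
    rw [div_le_iff₀ (by positivity)] at h5; linarith
  have hm5 : (0 : ℝ) < m := by
    by_contra h
    have h' : (m : ℝ) = 0 := le_antisymm (not_lt.1 h) (by positivity)
    rw [h'] at hm1
    linarith
  have hδ3 : δ ^ 3 ≤ δ ^ 2 * 1 := by
    have : δ ^ 3 = δ ^ 2 * δ := by ring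
    rw [this]
    exact mul_le_mul_of_nonneg_left (by linarith) (by positivity)
  have hδm : 3300 ≤ δ * m := by
    have e1 : δ ^ 3 * m ≤ δ * m := mul_le_mul_of_nonneg_right (by linarith) hm5.le
    linarith
  obtain ⟨rlow, hrl1, hrl2⟩ : ∃ rlow : ℕ, δ * m ≤ rlow ∧ (rlow : ℝ) < δ * m + 1 :=
    ⟨⌈δ * m⌉₊, Nat.le_ceil _, Nat.ceil_lt_add_one (by positivity)⟩
  obtain ⟨j0, hj1, hj2⟩ : ∃ j0 : ℕ, (j0 : ℝ) ≤ δ * m ∧ δ * m < j0 + 1 :=
    ⟨⌊δ * m⌋₊, Nat.floor_le (by positivity), Nat.lt_floor_add_one _⟩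
  -- many involutions
  rcases le_or_gt (δ * δ * m) (invol S : ℝ) with hinv | hinv
  · have e1 := h1 (invol S) hinv
    have e2 := two_pow_invol_le hS
    have e3 : (2 : ℝ) ^ invol S ≤ S.subsetSum.card := by exact_mod_cast e2
    have e4 : (c + γ / 400) * (m : ℝ) ^ 2 ≤ 1 * (m : ℝ) ^ 2 := by
      apply mul_le_mul_of_nonneg_right _ (by positivity)
      linarith
    linarith
  -- initial set
  have hj0m : j0 ≤ S.card := by
    have : (j0 : ℝ) ≤ m := by nlinarith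
    rw [hm]
    exact_mod_cast this
  obtain ⟨X₀, hX₀S, hX₀c⟩ := Finset.exists_subset_card_eq hj0m
  have hX₀ : 2 / δ * S.card ≤ X₀.subsetSum.card := by
    have e1 := base _ X₀ (hS.mono hX₀S) rfl
    rw [hX₀c] at e1
    have e2 : (j0 : ℝ) ^ 2 ≤ 400 * (X₀.subsetSum.card : ℝ) := by exact_mod_cast e1
    rw [hm]
    exact num_C hδ hm5 hm1 hδm hj2 e2
  have hrlm : rlow + j0 ≤ m := by
    have : (rlow : ℝ) + j0 ≤ m := by nlinarith
    exact_mod_cast this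
  obtain ⟨k, hk⟩ := Nat.exists_eq_add_of_le hrlm
  have hproc := process hS hX₀S hδ (by linarith) rlow
    (by
      have := mul_le_mul_of_nonneg_left hrl1 hδ.le
      linarith)
    (by
      have : δ ^ 2 * (δ * m) ≤ δ ^ 2 * rlow := mul_le_mul_of_nonneg_left hrl1 (by positivity)
      have e : δ ^ 2 * (δ * m) = δ ^ 3 * m := by ring
      linarith) hX₀ (rlow + k) (by omega) k rlow rfl le_rfl
  have hn0 : ((rlow + k : ℕ) : ℝ) = m - j0 := by
    rw [hk]; push_cast; ring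
  rw [hn0] at hproc
  rcases hproc with ⟨X, hXS, -, -, hX⟩ | ⟨R, hRS, hR1, hR2, hR3, hR4⟩
  · have e1 : (X.subsetSum.card : ℝ) ≤ S.subsetSum.card := by
      exact_mod_cast card_le_card (Finset.subsetSum_mono hXS)
    exact num_A hδdef hγ hc0 hγpos hm5 hδm hj1 (Nat.cast_nonneg rlow) hrl2 (hX.trans e1)
  · have hRM : M ≤ R.card := by
      have e1 : (M : ℝ) ≤ R.card := by
        have : (rlow : ℝ) ≤ R.card := by exact_mod_cast hR1
        linarith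
      exact_mod_cast e1
    have hb := hM R (hS.mono hRS) hRM
    have hR4' : 2 * (R.subsetSum.card : ℝ) ≤ S.subsetSum.card := by exact_mod_cast hR4
    have hrm : (R.card : ℝ) ≤ m := by
      rw [← hm]
      exact_mod_cast card_le_card hRS
    exact num_B hδdef hγ hc0 hγpos hm5 hj1 hm4 (Nat.cast_nonneg _) hrm hR3 hR4' hb

theorem improve {c : ℝ} (hc0 : 1 / 400 ≤ c) (hc1 : c < 1 / 2) (hc : Bound.{u} c) :
    Bound.{u} (c + (1 / 2 - c) / 400) := by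
  obtain ⟨M, hM⟩ := hc
  obtain ⟨γ, hγ⟩ : ∃ γ : ℝ, γ = 1 / 2 - c := ⟨_, rfl⟩
  obtain ⟨δ, hδdef⟩ : ∃ δ : ℝ, δ = γ / 50 := ⟨_, rfl⟩
  have hγpos : 0 < γ := by linarith
  have hδ : 0 < δ := by rw [hδdef]; positivity
  rw [← hγ]
  -- conditions for large `m`
  have E1 := eventually_exp (δ * δ) (by positivity)
  have hlarge : ∀ A : ℝ, ∀ᶠ m : ℕ in atTop, A ≤ m := fun A =>
    (tendsto_natCast_atTop_atTop (R := ℝ)).eventually_ge_atTop A
  have E2 := hlarge (3300 / δ ^ 3)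
  have E3 := hlarge (M / δ)
  have E5 := hlarge (1000 / γ ^ 2)
  obtain ⟨M', hM'⟩ := eventually_atTop.1 (E1.and (E2.and (E3.and E5)))
  refine ⟨M', ?_⟩
  intro G _ _ _ S hS hSM
  obtain ⟨h1, h2, h3, h5⟩ := hM' S.card hSM
  exact improve_aux hδdef hγ hc0 hγpos M (hM G) S hS _ rfl h1 h2 h3 h5

theorem bound_base : Bound.{u} (1 / 400) := by
  refine ⟨0, ?_⟩
  intro G _ _ _ S hS _
  have h1 := base _ S hS rfl
  have h2 : (S.card : ℝ) ^ 2 ≤ 400 * (S.subsetSum.card : ℝ) := by exact_mod_cast h1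
  linarith

theorem bound_iter (n : ℕ) :
    Bound.{u} (1 / 2 - (1 / 2 - 1 / 400) * (1 - 1 / 400) ^ n) := by
  induction n with
  | zero => simpa using bound_base
  | succ n ih =>
    have h1 : (0 : ℝ) < (1 - 1 / 400) ^ n := by positivity
    have h2 : ((1 : ℝ) - 1 / 400) ^ n ≤ 1 := pow_le_one₀ (by norm_num) (by norm_num)
    have h3 := improve (by linarith) (by linarith) ih
    convert h3 using 1
    rw [pow_succ]
    ring

theorem Bound.mono {c c' : ℝ} (h : Bound.{u} c) (hc : c' ≤ c) : Bound.{u} c' := by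
  obtain ⟨M, hM⟩ := h
  refine ⟨M, fun G _ _ _ S hS hSM => ?_⟩
  exact (mul_le_mul_of_nonneg_right hc (by positivity)).trans (hM G S hS hSM)

/-- Main theorem: for every `c < 1 / 2`, all large weakly zero-sum-free sets `S` have at least
`c |S| ^ 2` subset sums. -/
theorem bound_of_lt {c : ℝ} (hc : c < 1 / 2) : Bound.{u} c := by
  have h1 : Tendsto (fun n : ℕ => (1 / 2 - 1 / 400 : ℝ) * (1 - 1 / 400) ^ n) atTop (𝓝 0) := by
    have := (tendsto_pow_atTop_nhds_zero_of_lt_one (r := (1 - 1 / 400 : ℝ)) (by norm_num)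
      (by norm_num)).const_mul (1 / 2 - 1 / 400 : ℝ)
    simpa using this
  obtain ⟨n, hn⟩ := (h1.eventually (gt_mem_nhds (show (0 : ℝ) < 1 / 2 - c by linarith))).exists
  exact (bound_iter n).mono (by linarith)

end Pool.Agent.H.MP_516cd6_nt
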