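import Pool.Agent.H.MP_516cd6_nt.Growth

/-!
# Subset sums of weakly zero-sum-free sets: elementary facts
-/

set_option autoImplicit false
set_option linter.unusedSectionVars false

open Finset
open scoped Pointwise

namespace Pool.Agent.H.MP_516cd6_nt

variable {G : Type*} [AddCommGroup G] [DecidableEq G]

/-- No nonempty subset has sum zero. -/
def WZSF (A : Finset G) : Prop := ∀ B ⊆ A, B.Nonempty → ∑ b ∈ B, b ≠ 0

theorem WZSF.mono {A B : Finset G} (h : WZSF A) (hBA : B ⊆ A) : WZSF B :=
  fun C hC hne => h C (hC.trans hBA) hne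

theorem WZSF.zero_notMem {A : Finset G} (h : WZSF A) : (0 : G) ∉ A := by
  intro h0
  exact h {0} (by simpa using h0) (singleton_nonempty 0) (by simp)

theorem mem_SS {A : Finset G} {x : G} : x ∈ A.subsetSum ↔ ∃ B ⊆ A, ∑ b ∈ B, b = x :=
  Finset.mem_subsetSum_iff

theorem subsetSum_insert {A : Finset G} {a : G} (ha : a ∉ A) :
    (insert a A).subsetSum = A.subsetSum ∪ ({a} + A.subsetSum) := by
  ext x
  rw [mem_union, mem_singleton_add', mem_SS, mem_SS]
  constructor
  · rintro ⟨B, hB, rfl⟩
    by_cases haB : a ∈ B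
    · right
      refine ⟨∑ b ∈ B.erase a, b, mem_SS.2 ⟨B.erase a, ?_, rfl⟩, ?_⟩
      · intro b hb
        have h1 := hB (mem_of_mem_erase hb)
        rw [mem_insert] at h1
        rcases h1 with h1 | h1
        · exact absurd h1 (ne_of_mem_erase hb)
        · exact h1
      · exact Finset.add_sum_erase B (fun b => b) haB
    · left
      refine ⟨B, ?_, rfl⟩
      intro b hb
      have h1 := hB hb
      rw [mem_insert] at h1
      rcases h1 with h1 | h1
      · exact absurd (h1 ▸ hb) haB
      · exact h1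
  · rintro (⟨B, hB, rfl⟩ | ⟨y, hy, rfl⟩)
    · exact ⟨B, hB.trans (subset_insert _ _), rfl⟩
    · obtain ⟨B, hB, rfl⟩ := mem_SS.1 hy
      refine ⟨insert a B, insert_subset_insert a hB, ?_⟩
      rw [sum_insert (fun h => ha (hB h))]

theorem card_subsetSum_insert {A : Finset G} {a : G} (ha : a ∉ A) :
    (insert a A).subsetSum.card = A.subsetSum.card + lam A.subsetSum a := by
  rw [subsetSum_insert ha]
  unfold lam
  rw [← Finset.union_sdiff_self_eq_union, card_union_of_disjoint Finset.disjoint_sdiff]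

theorem add_subset_subsetSum_union {A B : Finset G} (hAB : Disjoint A B) :
    A.subsetSum + B.subsetSum ⊆ (A ∪ B).subsetSum := by
  intro x hx
  obtain ⟨y, hy, z, hz, rfl⟩ := Finset.mem_add.1 hx
  obtain ⟨C, hC, rfl⟩ := mem_SS.1 hy
  obtain ⟨D, hD, rfl⟩ := mem_SS.1 hz
  refine mem_SS.2 ⟨C ∪ D, union_subset_union hC hD, ?_⟩
  exact Finset.sum_union (Finset.disjoint_of_subset_left hC (Finset.disjoint_of_subset_right hD hAB))

theorem WZSF.eq_zero {A B : Finset G} (h : WZSF (A ∪ B)) (hAB : Disjoint A B) {y : G}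
    (hy : y ∈ A.subsetSum) (hy' : -y ∈ B.subsetSum) : y = 0 := by
  obtain ⟨C, hC, hCy⟩ := mem_SS.1 hy
  obtain ⟨D, hD, hDy⟩ := mem_SS.1 hy'
  have hdisj : Disjoint C D :=
    Finset.disjoint_of_subset_left hC (Finset.disjoint_of_subset_right hD hAB)
  have h1 : ∑ b ∈ C ∪ D, b = 0 := by
    rw [Finset.sum_union hdisj, hCy, hDy]
    simp
  by_contra hne
  have hCne : C.Nonempty := by
    rw [Finset.nonempty_iff_ne_empty]
    rintro rfl
    apply hne
    rw [← hCy]
    simp
  exact h (C ∪ D) (union_subset_union hC hD) (hCne.mono subset_union_left) h1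

theorem WZSF.card_lt {A : Finset G} (h : WZSF A) : A.card + 1 ≤ A.subsetSum.card := by
  have h1 : insert 0 A ⊆ A.subsetSum := by
    rw [insert_subset_iff]
    exact ⟨Finset.zero_mem_subsetSum, Finset.subset_subsetSum⟩
  have h2 := card_le_card h1
  rwa [card_insert_of_notMem h.zero_notMem] at h2

theorem subsetSum_subset_closure (A : Finset G) :
    ∀ x ∈ A.subsetSum, x ∈ AddSubgroup.closure (A : Set G) := by
  intro x hx
  obtain ⟨B, hB, rfl⟩ := mem_SS.1 hx
  exact AddSubgroup.sum_mem _ (fun b hb => AddSubgroup.subset_closure (by exact_mod_cast hB hb))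

/-- Weakly zero-sum-free sets of involutions are independent over `𝔽₂`. -/
theorem two_pow_le {A : Finset G} (h : WZSF A) (h2 : ∀ x ∈ A, x + x = 0) :
    2 ^ A.card ≤ A.subsetSum.card := by
  rw [← Finset.card_powerset]
  refine Finset.card_le_card_of_injOn (fun B => ∑ b ∈ B, b) ?_ ?_
  · intro B hB
    have hB' : B ⊆ A := by simpa using hB
    exact mem_SS.2 ⟨B, hB', rfl⟩
  · intro B hB C hC hBC
    have hB' : B ⊆ A := by simpa using hB
    have hC' : C ⊆ A := by simpa using hC
    simp only at hBC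
    by_contra hne
    have hsd : (symmDiff B C).Nonempty := by
      rw [Finset.nonempty_iff_ne_empty]
      intro he
      exact hne (symmDiff_eq_bot.1 he)
    have hsub : symmDiff B C ⊆ A := by
      intro x hx
      rw [Finset.mem_symmDiff] at hx
      rcases hx with ⟨hx, _⟩ | ⟨hx, _⟩
      · exact hB' hx
      · exact hC' hx
    apply h _ hsub hsd
    have e0 : symmDiff B C = (B \ C) ∪ (C \ B) := rfl
    have e1 : ∑ b ∈ symmDiff B C, b = ∑ b ∈ B \ C, b + ∑ b ∈ C \ B, b := by
      rw [e0, Finset.sum_union disjoint_sdiff_sdiff]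
    have e2 : ∑ b ∈ B, b = ∑ b ∈ B \ C, b + ∑ b ∈ B ∩ C, b := by
      rw [← Finset.sum_union (Finset.disjoint_sdiff_inter B C), Finset.sdiff_union_inter]
    have e3 : ∑ b ∈ C, b = ∑ b ∈ C \ B, b + ∑ b ∈ C ∩ B, b := by
      rw [← Finset.sum_union (Finset.disjoint_sdiff_inter C B), Finset.sdiff_union_inter]
    have e4 : ∑ b ∈ B \ C, b + ∑ b ∈ B \ C, b = 0 := by
      rw [← Finset.sum_add_distrib]
      exact Finset.sum_eq_zero (fun x hx => h2 x (hB' (mem_sdiff.1 hx).1))
    rw [inter_comm C B] at e3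
    have e5 : ∑ b ∈ C \ B, b = ∑ b ∈ B \ C, b := by
      have : ∑ b ∈ B \ C, b + ∑ b ∈ B ∩ C, b = ∑ b ∈ C \ B, b + ∑ b ∈ B ∩ C, b := by
        rw [← e2, ← e3]; exact hBC
      exact (add_right_cancel this).symm
    rw [e1, e5]
    exact e4

/-- The symmetric set `R ∪ -R ∪ {0}`. -/
def symSet (R : Finset G) : Finset G := insert 0 (R ∪ -R)

theorem zero_mem_symSet (R : Finset G) : (0 : G) ∈ symSet R := mem_insert_self _ _

theorem neg_mem_symSet {R : Finset G} : ∀ x ∈ symSet R, -x ∈ symSet R := by
  intro x hx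
  simp only [symSet, mem_insert, mem_union, Finset.mem_neg'] at hx ⊢
  rcases hx with rfl | hx | hx
  · left; simp
  · right; right; simpa using hx
  · right; left; exact hx

theorem mem_symSet {R : Finset G} {x : G} : x ∈ symSet R ↔ x = 0 ∨ x ∈ R ∨ -x ∈ R := by
  simp only [symSet, mem_insert, mem_union, Finset.mem_neg']

/-- The number of involutions of `R`. -/
def invol (R : Finset G) : ℕ := (R.filter (fun x => x + x = 0)).card

theorem card_symSet {R : Finset G} (h : WZSF R) : 2 * R.card + 1 ≤ (symSet R).card + invol R := by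
  unfold symSet
  have h0 : (0 : G) ∉ R ∪ -R := by
    rw [mem_union, Finset.mem_neg', neg_zero]
    rintro (h0 | h0) <;> exact h.zero_notMem h0
  rw [card_insert_of_notMem h0]
  have h1 := Finset.card_union_add_card_inter R (-R)
  have h2 : (-R).card = R.card := Finset.card_neg _
  have h3 : (R ∩ -R).card ≤ invol R := by
    refine card_le_card ?_
    intro x hx
    rw [mem_inter, Finset.mem_neg'] at hx
    rw [mem_filter]
    refine ⟨hx.1, ?_⟩
    by_contra hne
    have hxx : x ≠ -x := by
      intro h4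
      apply hne
      nth_rewrite 2 [h4]
      simp
    refine h {x, -x} ?_ ⟨x, by simp⟩ ?_
    · intro y hy
      rw [mem_insert, mem_singleton] at hy
      rcases hy with rfl | rfl
      · exact hx.1
      · exact hx.2
    · rw [Finset.sum_pair hxx]
      simp
  omega

theorem card_le_card_symSet {R : Finset G} (h : WZSF R) : R.card + 1 ≤ (symSet R).card := by
  have h1 : insert 0 R ⊆ symSet R := by
    unfold symSet
    exact insert_subset_insert _ subset_union_left
  have := card_le_card h1
  rwa [card_insert_of_notMem h.zero_notMem] at this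

end Pool.Agent.H.MP_516cd6_nt
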