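import Pool.Agent.H.MP_516cd6_nt.Iso
import Pool.Agent.H.MP_516cd6_nt.Sums

/-!
# Growth steps for weakly zero-sum-free sets
-/

set_option autoImplicit false
set_option linter.unusedSectionVars false

open Finset
open scoped Pointwise

namespace Pool.Agent.H.MP_516cd6_nt

section finite

variable {G : Type*} [AddCommGroup G] [Fintype G] [DecidableEq G]

/-- A generating set leaves every subgroup `H` with `H + T ≠ G`; the basic estimates. -/
theorem iso_core {T : Finset G} (h0 : (0 : G) ∈ T) (hs : ∀ x ∈ T, -x ∈ T)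
    (hgen : AddSubgroup.closure (T : Set G) = ⊤)
    (X : Finset G) (hX : X.Nonempty) (hXT : X + T ≠ univ) :
    ∃ (H : AddSubgroup G) (F : Finset G) (κ : ℕ), (∀ x, x ∈ F ↔ x ∈ H) ∧
      κ + X.card ≤ (X + T).card ∧ F.card ≤ κ ∧ T.card ≤ κ + (T ∩ F).card := by
  obtain ⟨H, F, hF, hFT, hle⟩ := exists_subgroup_le T h0 hs X hX hXT
  have hsub : F ⊆ F + T := subset_add_of_zero_mem h0
  refine ⟨H, F, (F + T).card - F.card, hF, ?_, ?_, ?_⟩
  · have := card_le_card hsub
    omega
  · -- some `t ∈ T` is not in `H`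
    have : ∃ t ∈ T, t ∉ H := by
      by_contra hcon
      push Not at hcon
      have h1 : AddSubgroup.closure (T : Set G) ≤ H := by
        rw [AddSubgroup.closure_le]
        intro t ht
        exact hcon t (by exact_mod_cast ht)
      rw [hgen, top_le_iff] at h1
      apply hFT
      have h2 : F = univ := by
        ext x
        rw [hF, h1]
        simp
      rw [h2] at hsub ⊢
      exact Finset.univ_subset_iff.1 hsub
    obtain ⟨t, ht, htH⟩ := this
    have h1 : {t} + F ⊆ (F + T) \ F := by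
      intro w hw
      obtain ⟨b, hb, rfl⟩ := mem_singleton_add'.1 hw
      rw [mem_sdiff]
      constructor
      · rw [add_comm t b]
        exact Finset.add_mem_add hb ht
      · intro h2
        rw [hF] at h2 hb
        exact htH ((H.add_mem_cancel_right hb).1 h2)
    have h2 := card_le_card h1
    rw [card_sdiff_of_subset hsub] at h2
    have h3 : ({t} + F).card = F.card := by simp
    omega
  · have h1 : T \ F ⊆ (F + T) \ F := by
      refine sdiff_subset_sdiff ?_ (Subset.refl _)
      intro t ht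
      have h0F : (0 : G) ∈ F := (hF 0).2 H.zero_mem
      have := Finset.add_mem_add h0F ht
      rwa [zero_add] at this
    have h2 := card_le_card h1
    rw [card_sdiff_of_subset hsub] at h2
    have h3 := Finset.card_sdiff_add_card_inter T F
    omega

/-- Olson's isoperimetric inequality. -/
theorem iso_weak {T : Finset G} (h0 : (0 : G) ∈ T) (hs : ∀ x ∈ T, -x ∈ T)
    (hgen : AddSubgroup.closure (T : Set G) = ⊤)
    (X : Finset G) (hX : X.Nonempty) (hXT : X + T ≠ univ) :
    (X.card : ℝ) + (T.card : ℝ) / 2 ≤ (X + T).card := by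
  obtain ⟨H, F, κ, -, h1, h2, h3⟩ := iso_core h0 hs hgen X hX hXT
  have h4 : (T ∩ F).card ≤ F.card := card_le_card inter_subset_right
  have h5 : T.card ≤ 2 * κ := by omega
  have h6 : (T.card : ℝ) ≤ 2 * κ := by exact_mod_cast h5
  have h7 : (κ : ℝ) + X.card ≤ (X + T).card := by exact_mod_cast h1
  linarith

theorem closure_symSet {R : Finset G} (hgen : AddSubgroup.closure (R : Set G) = ⊤) :
    AddSubgroup.closure (symSet R : Set G) = ⊤ := by
  rw [eq_top_iff, ← hgen]
  apply AddSubgroup.closure_mono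
  intro x hx
  have hx' : x ∈ R := by exact_mod_cast hx
  have : x ∈ symSet R := mem_symSet.2 (Or.inr (Or.inl hx'))
  exact_mod_cast this

/-- Strong isoperimetric inequality for weakly zero-sum-free generating sets. -/
theorem iso_strong {R : Finset G} (hR : WZSF R) (hgen : AddSubgroup.closure (R : Set G) = ⊤)
    {N : ℝ} (hN : 0 < N)
    (hbase : ∀ R' ⊆ R, (R'.card : ℝ) ^ 2 ≤ N * (R'.subsetSum.card : ℝ))
    {δ : ℝ} (hδ : 0 < δ) (hδ1 : δ < 1) (hinv : (invol R : ℝ) ≤ δ * R.card)
    (hr : 8 * N < δ ^ 2 * R.card)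
    (X : Finset G) (hX : X.Nonempty) (hXT : X + symSet R ≠ univ) :
    (X.card : ℝ) + 2 * (1 - δ) * R.card ≤ (X + symSet R).card := by
  obtain ⟨H, F, κ, hF, h1, h2, h3⟩ :=
    iso_core (zero_mem_symSet R) neg_mem_symSet (closure_symSet hgen) X hX hXT
  by_contra hcon
  push Not at hcon
  set r : ℝ := (R.card : ℝ) with hrdef
  have h1' : (κ : ℝ) + X.card ≤ (X + symSet R).card := by exact_mod_cast h1
  have hκ : (κ : ℝ) < 2 * (1 - δ) * r := by linarith
  set R' : Finset G := R.filter (fun x => x ∈ F) with hR'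
  have hR'R : R' ⊆ R := filter_subset _ _
  -- `T ∩ F` is small
  have h4 : (symSet R ∩ F).card ≤ 1 + 2 * R'.card := by
    have hsub : symSet R ∩ F ⊆ insert 0 (R' ∪ -R') := by
      intro x hx
      rw [mem_inter, mem_symSet] at hx
      obtain ⟨hx1, hx2⟩ := hx
      rw [mem_insert, mem_union, Finset.mem_neg']
      rcases hx1 with rfl | hx1 | hx1
      · left; rfl
      · right; left
        rw [hR', mem_filter]
        exact ⟨hx1, hx2⟩
      · right; right
        rw [hR', mem_filter]
        refine ⟨hx1, ?_⟩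
        rw [hF] at hx2 ⊢
        exact H.neg_mem hx2
    calc (symSet R ∩ F).card ≤ (insert 0 (R' ∪ -R')).card := card_le_card hsub
      _ ≤ (R' ∪ -R').card + 1 := card_insert_le _ _
      _ ≤ (R'.card + (-R').card) + 1 := by
          have := card_union_le R' (-R')
          omega
      _ = 1 + 2 * R'.card := by rw [Finset.card_neg]; ring
  have h5 : R'.subsetSum.card ≤ F.card := by
    refine card_le_card ?_
    intro x hx
    obtain ⟨B, hB, rfl⟩ := mem_SS.1 hx
    rw [hF]
    refine AddSubgroup.sum_mem _ (fun b hb => ?_)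
    have hb' := hB hb
    rw [hR', mem_filter] at hb'
    exact (hF b).1 hb'.2
  have h6 := hbase R' hR'R
  have h7 := card_symSet hR
  have h7' : 2 * r + 1 ≤ ((symSet R).card : ℝ) + invol R := by
    rw [hrdef]; exact_mod_cast h7
  have h8 : ((symSet R).card : ℝ) ≤ κ + (1 + 2 * (R'.card : ℝ)) := by
    have : (symSet R).card ≤ κ + (1 + 2 * R'.card) := by omega
    exact_mod_cast this
  have h9 : (R'.subsetSum.card : ℝ) ≤ κ := by
    have : R'.subsetSum.card ≤ κ := by omega
    exact_mod_cast this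
  have hrpos : 0 < r := by
    rw [hrdef] at hr ⊢
    by_contra h
    have h' : (R.card : ℝ) = 0 := le_antisymm (not_lt.1 h) (by positivity)
    rw [h'] at hr
    linarith
  -- `δ r < 2 |R'|`
  have h10 : δ * r < 2 * (R'.card : ℝ) := by linarith
  have h11 : (R'.card : ℝ) ^ 2 ≤ N * (2 * r) := by
    calc (R'.card : ℝ) ^ 2 ≤ N * (R'.subsetSum.card : ℝ) := h6
      _ ≤ N * κ := mul_le_mul_of_nonneg_left h9 hN.le
      _ ≤ N * (2 * r) := by
          apply mul_le_mul_of_nonneg_left _ hN.le
          nlinarith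
  have h12 : (δ * r) ^ 2 < (2 * (R'.card : ℝ)) ^ 2 := by
    apply pow_lt_pow_left₀ h10 (by positivity) (by norm_num)
  have h13 : δ ^ 2 * r * r < 8 * N * r := by nlinarith
  have h14 : δ ^ 2 * r < 8 * N := lt_of_mul_lt_mul_right h13 hrpos.le
  linarith

theorem exists_mem_of_symSet {R C : Finset G} {x : G} (hx : x ∈ symSet R) (hpos : 0 < lam C x) :
    ∃ y ∈ R, lam C y = lam C x := by
  rw [mem_symSet] at hx
  rcases hx with rfl | hx | hx
  · rw [lam_zero] at hpos
    exact absurd hpos (lt_irrefl 0)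
  · exact ⟨x, hx, rfl⟩
  · exact ⟨-x, hx, lam_neg C x⟩

/-- Weak growth step. -/
theorem weak_step {R : Finset G} (hR : WZSF R) (hgen : AddSubgroup.closure (R : Set G) = ⊤)
    (hRne : R.Nonempty)
    (C : Finset G) {b : ℕ} (hb0 : 0 < b) (hb1 : b ≤ C.card) (hb2 : C.card + b ≤ Fintype.card G) :
    ∃ x ∈ R, b ≤ 2 * lam C x ∨ R.card ≤ 8 * lam C x := by
  set T := symSet R with hT
  have h0 : (0 : G) ∈ T := zero_mem_symSet R
  obtain ⟨x, hx, hmax⟩ := Finset.exists_max_image T (fun x => lam C x) ⟨0, h0⟩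
  have key : ∀ B : Finset G, 2 * B.card ≤ Fintype.card G → b ≤ B.card →
      (∀ y, lam B y = lam C y) → b ≤ 2 * lam C x ∨ R.card ≤ 8 * lam C x := by
    intro B hB hbB hl
    have hα : ∀ y ∈ T, (lam B y : ℝ) ≤ (lam C x : ℝ) := by
      intro y hy
      rw [hl]
      exact_mod_cast hmax y hy
    rcases le_or_gt (2 * B.card) T.card with h | h
    · left
      have h1 := growth_small h0 B h (lam C x) hα
      have h2 : B.card ≤ 2 * lam C x := by exact_mod_cast h1
      omega
    · right
      have hTc := card_le_card_symSet hR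
      rw [← hT] at hTc
      have hTpos : (0 : ℝ) < T.card := by
        have : 0 < T.card := by omega
        exact_mod_cast this
      have h' : (T.card : ℝ) < 2 * B.card := by exact_mod_cast h
      have h1 := growth_aux h0 (K := (T.card : ℝ) / 2) (by positivity)
        (fun X hX hXT => iso_weak h0 neg_mem_symSet (closure_symSet hgen) X hX hXT) B hB
        (by linarith) (lam C x) hα
      set β : ℝ := (B.card : ℝ)
      set τ : ℝ := (T.card : ℝ) with hτ
      set α : ℝ := (lam C x : ℝ) with hαdef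
      have hαnn : 0 ≤ α := by positivity
      have hβ : 0 < β := by linarith
      have h2 : τ / 2 * β ≤ 4 * α * β := by nlinarith
      have h3 : τ / 2 ≤ 4 * α := le_of_mul_le_mul_right h2 hβ
      have h4 : τ ≤ 8 * α := by linarith
      have h5 : T.card ≤ 8 * lam C x := by
        rw [hτ, hαdef] at h4
        exact_mod_cast h4
      omega
  have hmain : b ≤ 2 * lam C x ∨ R.card ≤ 8 * lam C x := by
    rcases le_total (2 * C.card) (Fintype.card G) with h | h
    · exact key C h hb1 (fun _ => rfl)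
    · refine key Cᶜ ?_ ?_ (fun y => lam_compl C y)
      · rw [card_compl]; omega
      · rw [card_compl]; omega
  have hRc : 0 < R.card := hRne.card_pos
  obtain ⟨y, hy, hyx⟩ := exists_mem_of_symSet (C := C) hx (by omega)
  exact ⟨y, hy, by rw [hyx]; exact hmain⟩

/-- Strong growth step. -/
theorem strong_step {R : Finset G} (hR : WZSF R) (hgen : AddSubgroup.closure (R : Set G) = ⊤)
    {N : ℝ} (hN : 0 < N)
    (hbase : ∀ R' ⊆ R, (R'.card : ℝ) ^ 2 ≤ N * (R'.subsetSum.card : ℝ))
    {δ : ℝ} (hδ : 0 < δ) (hδ1 : δ < 1 / 2) (hinv : (invol R : ℝ) ≤ δ * R.card)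
    (hr : 8 * N < δ ^ 2 * R.card)
    (C : Finset G) (hb1 : 2 / δ * R.card ≤ C.card)
    (hb2 : C.card + 2 / δ * R.card ≤ Fintype.card G) :
    ∃ x ∈ R, (1 - 2 * δ) * R.card ≤ lam C x := by
  set r : ℝ := (R.card : ℝ) with hrdef
  have hrpos : 0 < r := by
    by_contra h
    have h' : r = 0 := le_antisymm (not_lt.1 h) (by positivity)
    rw [h'] at hr
    linarith
  set K : ℝ := 2 * (1 - δ) * r with hK
  set b : ℝ := 2 / δ * r with hb
  have hKpos : 0 < K := by rw [hK]; apply mul_pos _ hrpos; linarith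
  have hbpos : 0 < b := by rw [hb]; positivity
  have hbδ : b * δ = 2 * r := by rw [hb]; field_simp
  have hbK : K ≤ 8 * b := by
    have : K ≤ 2 * r := by rw [hK]; nlinarith
    have h2 : b * δ ≤ b * 1 := mul_le_mul_of_nonneg_left (by linarith) hbpos.le
    linarith
  obtain ⟨x, hx, hgr⟩ := growth (zero_mem_symSet R) hKpos
    (fun X hX hXT => iso_strong hR hgen hN hbase hδ (by linarith) hinv hr X hX hXT)
    C hb1 hb2 hbK
  have hlpos : 0 < lam C x := by
    rcases Nat.eq_zero_or_pos (lam C x) with h | h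
    · rw [h] at hgr
      have : 0 < K * b := by positivity
      simp at hgr
      linarith
    · exact h
  obtain ⟨y, hy, hyx⟩ := exists_mem_of_symSet (C := C) hx hlpos
  refine ⟨y, hy, ?_⟩
  rw [hyx]
  set α : ℝ := (lam C x : ℝ)
  -- `K b ≤ 2 (b + K) α`, `K ≤ 2 r = δ b`
  have hαnn : 0 ≤ α := by positivity
  have h1 : K ≤ δ * b := by rw [hK]; nlinarith
  have h2 : K * b ≤ 2 * ((1 + δ) * b) * α := by
    calc K * b ≤ 2 * (b + K) * α := hgr
      _ ≤ 2 * ((1 + δ) * b) * α := by
          apply mul_le_mul_of_nonneg_right _ hαnn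
          linarith
  have h3 : K * b ≤ (2 * (1 + δ) * α) * b := by linarith
  have h4 : K ≤ 2 * (1 + δ) * α := le_of_mul_le_mul_right h3 hbpos
  have h5 : (1 - δ) * r ≤ (1 + δ) * α := by rw [hK] at h4; linarith
  have h6 : (1 + δ) * ((1 - 2 * δ) * r) ≤ (1 + δ) * α := by nlinarith
  exact le_of_mul_le_mul_left h6 (by linarith)

end finite

section transfer

variable {G : Type*} [AddCommGroup G] [DecidableEq G]

/-- Restriction of a finset to a subgroup. -/
noncomputable def restr (H : AddSubgroup G) (A : Finset G) : Finset H :=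
  A.preimage (fun x : H => (x : G)) (Subtype.val_injective.injOn)

theorem mem_restr {H : AddSubgroup G} {A : Finset G} {x : H} : x ∈ restr H A ↔ (x : G) ∈ A := by
  simp [restr]

theorem card_restr {H : AddSubgroup G} {A : Finset G} (hA : ∀ a ∈ A, a ∈ H) :
    (restr H A).card = A.card := by
  refine Finset.card_bij (fun x _ => (x : G)) ?_ ?_ ?_
  · intro x hx
    exact mem_restr.1 hx
  · intro x _ y _ h
    exact Subtype.ext h
  · intro a ha
    exact ⟨⟨a, hA a ha⟩, mem_restr.2 ha, rfl⟩

theorem lam_restr {H : AddSubgroup G} {A : Finset G} (hA : ∀ a ∈ A, a ∈ H) (x : H) :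
    lam (restr H A) x = lam A (x : G) := by
  unfold lam
  refine Finset.card_bij (fun y _ => (y : G)) ?_ ?_ ?_
  · intro y hy
    rw [mem_sdiff, mem_singleton_add', mem_restr] at hy
    rw [mem_sdiff, mem_singleton_add']
    obtain ⟨⟨b, hb, rfl⟩, h2⟩ := hy
    exact ⟨⟨b, mem_restr.1 hb, rfl⟩, h2⟩
  · intro y _ z _ h
    exact Subtype.ext h
  · intro a ha
    rw [mem_sdiff, mem_singleton_add'] at ha
    obtain ⟨⟨b, hb, rfl⟩, h2⟩ := ha
    refine ⟨x + ⟨b, hA b hb⟩, ?_, rfl⟩
    rw [mem_sdiff, mem_singleton_add', mem_restr]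
    exact ⟨⟨⟨b, hA b hb⟩, mem_restr.2 hb, rfl⟩, h2⟩

theorem closure_restr (R : Finset G) :
    AddSubgroup.closure ((restr (AddSubgroup.closure (R : Set G)) R : Finset _) :
      Set (AddSubgroup.closure (R : Set G))) = ⊤ := by
  have h : ((restr (AddSubgroup.closure (R : Set G)) R : Finset _) :
      Set (AddSubgroup.closure (R : Set G))) = ((↑) : _ → G) ⁻¹' (R : Set G) := by
    ext x
    simp [mem_restr]
  rw [h]
  exact AddSubgroup.closure_closure_coe_preimage

theorem card_map_subsetSum {H : AddSubgroup G} (A : Finset H) :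
    (A.map (Function.Embedding.subtype _)).subsetSum.card = A.subsetSum.card := by
  symm
  refine Finset.card_bij (fun x _ => (x : G)) ?_ ?_ ?_
  · intro x hx
    obtain ⟨B, hB, rfl⟩ := mem_SS.1 hx
    refine mem_SS.2 ⟨B.map (Function.Embedding.subtype _), map_subset_map.2 hB, ?_⟩
    rw [Finset.sum_map]
    simp
  · intro x _ y _ h
    exact Subtype.ext h
  · intro y hy
    obtain ⟨B, hB, rfl⟩ := mem_SS.1 hy
    obtain ⟨C, hC, rfl⟩ := Finset.subset_map_iff.1 hB
    refine ⟨∑ c ∈ C, c, mem_SS.2 ⟨C, hC, rfl⟩, ?_⟩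
    rw [Finset.sum_map]
    simp

theorem WZSF.restr {H : AddSubgroup G} {A : Finset G} (h : WZSF A) : WZSF (restr H A) := by
  intro B hB hBne hsum
  refine h (B.map (Function.Embedding.subtype _)) ?_ (hBne.map) ?_
  · intro x hx
    rw [mem_map] at hx
    obtain ⟨y, hy, rfl⟩ := hx
    exact mem_restr.1 (hB hy)
  · rw [Finset.sum_map]
    have := congrArg (fun x : H => (x : G)) hsum
    simpa using this

theorem WZSF.map {H : AddSubgroup G} {A : Finset H} (h : WZSF A) :
    WZSF (A.map (Function.Embedding.subtype _)) := by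
  intro B hB hBne hsum
  obtain ⟨C, hC, rfl⟩ := Finset.subset_map_iff.1 hB
  refine h C hC (by simpa using hBne) ?_
  rw [Finset.sum_map] at hsum
  apply Subtype.ext
  simpa using hsum

theorem map_subset_of_restr {H : AddSubgroup G} {A : Finset G} {B : Finset H}
    (h : B ⊆ Pool.Agent.H.MP_516cd6_nt.restr H A) :
    B.map (Function.Embedding.subtype _) ⊆ A := by
  intro x hx
  rw [mem_map] at hx
  obtain ⟨y, hy, rfl⟩ := hx
  exact mem_restr.1 (h hy)

theorem invol_restr {H : AddSubgroup G} {A : Finset G} :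
    invol (Pool.Agent.H.MP_516cd6_nt.restr H A) ≤ invol A := by
  unfold invol
  refine Finset.card_le_card_of_injOn (fun x => (x : G)) ?_ ?_
  · intro x hx
    have hx' := Finset.mem_filter.1 (by exact_mod_cast hx)
    have h2 : (x : G) ∈ A.filter (fun x => x + x = 0) := by
      rw [mem_filter]
      refine ⟨mem_restr.1 hx'.1, ?_⟩
      have := congrArg (fun x : H => (x : G)) hx'.2
      simpa using this
    exact_mod_cast h2
  · intro x _ y _ h
    exact Subtype.ext h

variable [Finite G]

/-- Weak growth step inside the subgroup generated by `R`. -/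
theorem weak_step' {R : Finset G} (hR : WZSF R) (hRne : R.Nonempty) (C : Finset G)
    (hC : ∀ c ∈ C, c ∈ AddSubgroup.closure (R : Set G)) {b : ℕ} (hb0 : 0 < b) (hb1 : b ≤ C.card)
    (hb2 : C.card + b ≤ Nat.card (AddSubgroup.closure (R : Set G))) :
    ∃ x ∈ R, b ≤ 2 * lam C x ∨ R.card ≤ 8 * lam C x := by
  classical
  set H := AddSubgroup.closure (R : Set G) with hH
  have : Fintype H := Fintype.ofFinite H
  have hRH : ∀ a ∈ R, a ∈ H := fun a ha => AddSubgroup.subset_closure (by exact_mod_cast ha)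
  have e1 := card_restr hRH
  have e2 := card_restr hC
  rw [Nat.card_eq_fintype_card] at hb2
  obtain ⟨x, hx, h⟩ := weak_step (hR.restr (H := H)) (closure_restr R)
    (by rw [← card_pos, e1]; exact hRne.card_pos)
    (Pool.Agent.H.MP_516cd6_nt.restr H C) hb0 (by rw [e2]; exact hb1) (by rw [e2]; exact hb2)
  refine ⟨(x : G), mem_restr.1 hx, ?_⟩
  rw [lam_restr hC, e1] at h
  exact h

/-- Strong growth step inside the subgroup generated by `R`. -/
theorem strong_step' {R : Finset G} (hR : WZSF R) {N : ℝ} (hN : 0 < N)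
    (hbase : ∀ R' ⊆ R, (R'.card : ℝ) ^ 2 ≤ N * (R'.subsetSum.card : ℝ))
    {δ : ℝ} (hδ : 0 < δ) (hδ1 : δ < 1 / 2) (hinv : (invol R : ℝ) ≤ δ * R.card)
    (hr : 8 * N < δ ^ 2 * R.card)
    (C : Finset G) (hC : ∀ c ∈ C, c ∈ AddSubgroup.closure (R : Set G))
    (hb1 : 2 / δ * R.card ≤ C.card)
    (hb2 : C.card + 2 / δ * R.card ≤ Nat.card (AddSubgroup.closure (R : Set G))) :
    ∃ x ∈ R, (1 - 2 * δ) * R.card ≤ lam C x := by
  classical
  set H := AddSubgroup.closure (R : Set G) with hH
  have : Fintype H := Fintype.ofFinite H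
  have hRH : ∀ a ∈ R, a ∈ H := fun a ha => AddSubgroup.subset_closure (by exact_mod_cast ha)
  have e1 := card_restr hRH
  have e2 := card_restr hC
  rw [Nat.card_eq_fintype_card] at hb2
  obtain ⟨x, hx, h⟩ := strong_step (hR.restr (H := H)) (closure_restr R) hN
    (by
      intro R' hR'
      have h1 := hbase _ (map_subset_of_restr hR')
      rw [card_map_subsetSum, card_map] at h1
      exact h1)
    hδ hδ1
    (by
      rw [e1]
      refine le_trans ?_ hinv
      exact_mod_cast invol_restr)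
    (by rw [e1]; exact hr)
    (Pool.Agent.H.MP_516cd6_nt.restr H C) (by rw [e1, e2]; exact hb1) (by rw [e1, e2]; exact hb2)
  refine ⟨(x : G), mem_restr.1 hx, ?_⟩
  rw [lam_restr hC, e1] at h
  exact h

end transfer

end Pool.Agent.H.MP_516cd6_nt
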